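import Mathlib

/-!
Definitions used in the statement of the result on ovals all of whose two-pencil maps are
conjugate to Mobius transformations.
-/

open scoped ContDiff LinearAlgebra.Projectivization

namespace Pool.Agent.H57.Oval

/-- `c : ℝ → ℝ²` is a smooth regular simple closed parametrization (of period `1`) of an oval:
its image is the boundary of a compact strictly convex set with nonempty interior. -/
structure IsOval (c : ℝ → EuclideanSpace ℝ (Fin 2)) : Prop where
  smooth : ContDiff ℝ ∞ c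
  periodic : Function.Periodic c 1
  regular : ∀ t, deriv c t ≠ 0
  injective : Set.InjOn c (Set.Ico 0 1)
  convex : ∃ K : Set (EuclideanSpace ℝ (Fin 2)), IsCompact K ∧ StrictConvex ℝ K ∧
    (interior K).Nonempty ∧ frontier K = Set.range c

open Classical in
/-- The map `σ_P : γ → γ`: the second intersection point of the line `Px` with `γ`, and `x` itself
if there is no other intersection point (that is, if `Px` is tangent to `γ`). -/
noncomputable def secondPoint (γ : Set (EuclideanSpace ℝ (Fin 2)))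
    (P x : EuclideanSpace ℝ (Fin 2)) : EuclideanSpace ℝ (Fin 2) :=
  if h : ∃ y, y ∈ γ ∧ y ≠ x ∧ ∃ r : ℝ, y = P + r • (x - P) then h.choose else x

/-- The map `F_{γ,P,Q} = σ_Q ∘ σ_P`. -/
noncomputable def pencilMap (γ : Set (EuclideanSpace ℝ (Fin 2)))
    (P Q x : EuclideanSpace ℝ (Fin 2)) : EuclideanSpace ℝ (Fin 2) :=
  secondPoint γ Q (secondPoint γ P x)

/-- `h` restricts to a smooth diffeomorphism from the curve `γ = range c` onto `ℝP¹`:
it is bijective from `γ` onto `ℝP¹` and in terms of the parametrization `c` it is given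
by homogeneous coordinates `H : ℝ → ℝ²` which are smooth and whose Wronskian vanishes nowhere
(this says that `h ∘ c` is smooth with nowhere vanishing derivative). -/
def IsDiffeoToRP1 (c : ℝ → EuclideanSpace ℝ (Fin 2))
    (h : EuclideanSpace ℝ (Fin 2) → ℙ ℝ (Fin 2 → ℝ)) : Prop :=
  Set.BijOn h (Set.range c) Set.univ ∧
  ∃ H : ℝ → Fin 2 → ℝ, ContDiff ℝ ∞ H ∧
    (∀ t, H t 0 * deriv H t 1 - H t 1 * deriv H t 0 ≠ 0) ∧
    ∀ t, ∃ hne : H t ≠ 0, h (c t) = Projectivization.mk ℝ (H t) hne

/-- The self-map `F` of the curve `γ = range c` is conjugate to a Mobius transformation: there are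
a diffeomorphism `h : γ → ℝP¹` and an invertible matrix `A`, acting on `ℝP¹` by `[v] ↦ [A v]`,
with `h ∘ F = A ∘ h`. -/
def ConjToMobius (c : ℝ → EuclideanSpace ℝ (Fin 2))
    (F : EuclideanSpace ℝ (Fin 2) → EuclideanSpace ℝ (Fin 2)) : Prop :=
  ∃ (h : EuclideanSpace ℝ (Fin 2) → ℙ ℝ (Fin 2 → ℝ)) (A : Matrix (Fin 2) (Fin 2) ℝ),
    IsDiffeoToRP1 c h ∧ A.det ≠ 0 ∧
    ∀ x ∈ Set.range c, ∀ (v : Fin 2 → ℝ) (hv : v ≠ 0), h x = Projectivization.mk ℝ v hv →
      ∃ hAv : A.mulVec v ≠ 0, h (F x) = Projectivization.mk ℝ (A.mulVec v) hAv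

/-- `γ` is an ellipse: `γ = {p + cos θ u + sin θ v : θ ∈ ℝ}` with `u, v` linearly independent
(an affine image of the unit circle). -/
def IsEllipse (γ : Set (EuclideanSpace ℝ (Fin 2))) : Prop :=
  ∃ p u v : EuclideanSpace ℝ (Fin 2), u 0 * v 1 - u 1 * v 0 ≠ 0 ∧
    γ = Set.range (fun θ : ℝ => p + Real.cos θ • u + Real.sin θ • v)

end Pool.Agent.H57.Oval
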