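import Mathlib

open Set Filter Topology

namespace Pool.Agent.H57.Oval

/-- the plane -/
abbrev E2 := EuclideanSpace ℝ (Fin 2)

/-- cross product -/
def cross (u v : E2) : ℝ := u 0 * v 1 - u 1 * v 0

lemma cross_add_right (u v w : E2) : cross u (v + w) = cross u v + cross u w := by
  simp [cross]; ring

lemma cross_add_left (u v w : E2) : cross (u + v) w = cross u w + cross v w := by
  simp [cross]; ring

lemma cross_sub_right (u v w : E2) : cross u (v - w) = cross u v - cross u w := by
  simp [cross]; ring

lemma cross_sub_left (u v w : E2) : cross (u - v) w = cross u w - cross v w := by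
  simp [cross]; ring

lemma cross_smul_right (u v : E2) (r : ℝ) : cross u (r • v) = r * cross u v := by
  simp [cross]; ring

lemma cross_smul_left (u v : E2) (r : ℝ) : cross (r • u) v = r * cross u v := by
  simp [cross]; ring

lemma cross_neg_right (u v : E2) : cross u (-v) = - cross u v := by
  simp [cross]; ring

lemma cross_self (u : E2) : cross u u = 0 := by simp [cross]; ring

lemma cross_comm (u v : E2) : cross u v = - cross v u := by simp [cross]; ring

lemma cross_zero_right (u : E2) : cross u 0 = 0 := by simp [cross]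

lemma exists_smul_of_cross_eq_zero {u v : E2} (hu : u ≠ 0) (h : cross u v = 0) : ∃ r : ℝ, v = r • u := by
  have h' : u 0 * v 1 = u 1 * v 0 := by unfold cross at h; linarith
  have : u 0 ≠ 0 ∨ u 1 ≠ 0 := by
    by_contra hcon
    push Not at hcon
    apply hu
    ext i
    fin_cases i <;> simp [hcon]
  rcases this with h0 | h1
  · refine ⟨v 0 / u 0, ?_⟩
    ext i
    fin_cases i
    · simp; field_simp
    · simp; field_simp; linarith
  · refine ⟨v 1 / u 1, ?_⟩
    ext i
    fin_cases i
    · simp; field_simp; linarith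
    · simp; field_simp

/-- the continuous linear functional `cross u ·` -/
noncomputable def crossL (u : E2) : E2 →L[ℝ] ℝ :=
  LinearMap.toContinuousLinearMap
    { toFun := cross u
      map_add' := cross_add_right u
      map_smul' := fun r v => by simpa using cross_smul_right u v r }

@[simp] lemma crossL_apply (u v : E2) : crossL u v = cross u v := rfl

lemma exists_cross_repr (u v w : E2) (h : cross u v ≠ 0) :
    w = (cross w v / cross u v) • u + (cross u w / cross u v) • v := by
  ext i
  fin_cases i
  · simp; field_simp; simp [cross]; ring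
  · simp; field_simp; simp [cross]; ring

section convex

variable {K : Set E2}

lemma no_three (hKc : IsClosed K) (hKs : StrictConvex ℝ K) {x y z : E2} (hx : x ∈ frontier K)
    (hy : y ∈ frontier K) (hz : z ∈ frontier K) (hxy : x ≠ y) {r : ℝ} (hr : z = x + r • (y - x)) :
    z = x ∨ z = y := by
  have hxK : x ∈ K := hKc.frontier_subset hx
  have hyK : y ∈ K := hKc.frontier_subset hy
  have hzK : z ∈ K := hKc.frontier_subset hz
  have key : ∀ {u v w : E2}, u ∈ K → v ∈ K → u ≠ v → w ∈ frontier K → ∀ a b : ℝ, 0 < a → 0 < b → a + b = 1 →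
      w ≠ a • u + b • v := by
    intro u v w hu hv huv hw a b ha hb hab heq
    have := hKs hu hv huv ha hb hab
    rw [← heq] at this
    exact hw.2 this
  by_contra hcon
  push Not at hcon
  obtain ⟨h1, h2⟩ := hcon
  have hr0 : r ≠ 0 := by rintro rfl; apply h1; rw [hr]; simp
  have hr1 : r ≠ 1 := by rintro rfl; apply h2; rw [hr]; simp
  rcases lt_trichotomy r 0 with h | h | h
  · -- x between z and y
    have hd : (1 - r) ≠ 0 := by linarith
    refine key hzK hyK h2 hx (1 / (1 - r)) (-r / (1 - r)) (by apply div_pos <;> linarith)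
      (by apply div_pos <;> linarith) (by field_simp; ring) ?_
    rw [hr]
    have e : x = ((1 - r)⁻¹ * (1 - r)) • x := by rw [inv_mul_cancel₀ hd, one_smul]
    rw [div_eq_mul_inv, div_eq_mul_inv]
    nth_rw 1 [e]
    module
  · exact hr0 h
  · rcases lt_trichotomy r 1 with h' | h' | h'
    · refine key hxK hyK hxy hz (1 - r) r (by linarith) h (by ring) ?_
      rw [hr]; module
    · exact hr1 h'
    · refine key hxK hzK (Ne.symm h1) hy (1 - 1 / r) (1 / r) ?_ (by positivity) (by ring) ?_
      · have : 1 / r < 1 := by rw [div_lt_one h]; exact h'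
        linarith
      · rw [hr, smul_add, smul_smul, one_div, inv_mul_cancel₀ hr0]; module

lemma exists_beyond (hKc : IsCompact K) {x z : E2} (hz : z ∈ interior K) (hxz : x ≠ z) :
    ∃ s : ℝ, 1 < s ∧ x + s • (z - x) ∈ frontier K := by
  set φ : ℝ → E2 := fun s => x + s • (z - x) with hφ
  have hφc : Continuous φ := by fun_prop
  have hzx : 0 < ‖z - x‖ := norm_pos_iff.2 (sub_ne_zero.2 (Ne.symm hxz))
  set S : Set ℝ := {s | 1 ≤ s ∧ φ s ∈ K} with hS
  have hSne : S.Nonempty := ⟨1, le_rfl, by simp [hφ]; exact interior_subset hz⟩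
  have hScl : IsClosed S := (isClosed_Ici (a := (1 : ℝ))).inter (hKc.isClosed.preimage hφc)
  obtain ⟨R, hR⟩ := hKc.isBounded.subset_closedBall 0
  have hSb : BddAbove S := by
    refine ⟨(R + ‖x‖) / ‖z - x‖, fun s hs => ?_⟩
    have h1 : ‖φ s‖ ≤ R := by simpa using hR hs.2
    have h2 : ‖s • (z - x)‖ ≤ R + ‖x‖ := by
      have : s • (z - x) = φ s - x := by simp [hφ]
      rw [this]
      exact (norm_sub_le _ _).trans (by linarith)
    rw [norm_smul, Real.norm_of_nonneg (by linarith [hs.1])] at h2
    rwa [le_div_iff₀ hzx]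
  have hmax := hScl.csSup_mem hSne hSb
  set s := sSup S with hs
  have hφs : φ s ∈ frontier K := by
    rw [hKc.isClosed.frontier_eq]
    refine ⟨hmax.2, fun hint => ?_⟩
    have h1 : ∀ᶠ s' in 𝓝 s, φ s' ∈ interior K := hφc.continuousAt.eventually_mem (isOpen_interior.mem_nhds hint)
    have h2 : ∃ᶠ s' in 𝓝[>] s, True := by
      simp [frequently_true_iff_neBot]; infer_instance
    obtain ⟨s', hs'1, hs'2⟩ := ((h1.filter_mono nhdsWithin_le_nhds).and (self_mem_nhdsWithin : Ioi s ∈ 𝓝[>] s)).exists
    have : s' ∈ S := ⟨hmax.1.trans (le_of_lt hs'2), interior_subset hs'1⟩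
    have := le_csSup hSb this
    exact absurd hs'2 (not_lt.2 this)
  refine ⟨s, lt_of_le_of_ne hmax.1 ?_, hφs⟩
  intro h1
  rw [← h1] at hφs
  have : φ 1 = z := by simp [hφ]
  rw [this] at hφs
  exact hφs.2 hz

lemma exists_support (hKc : IsClosed K) (hKcv : Convex ℝ K) (hKi : (interior K).Nonempty) {x : E2}
    (hx : x ∈ frontier K) :
    ∃ f : E2 →L[ℝ] ℝ, (∀ y ∈ interior K, f y < f x) ∧ ∀ y ∈ K, f y ≤ f x := by
  have hx' : x ∉ interior K := hx.2
  obtain ⟨f, hf⟩ := geometric_hahn_banach_open_point hKcv.interior isOpen_interior hx'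
  refine ⟨f, hf, fun y hy => ?_⟩
  have h1 : closure (interior K) = K := by
    rw [hKcv.closure_interior_eq_closure_of_nonempty_interior hKi, hKc.closure_eq]
  rw [← h1] at hy
  exact le_of_tendsto_of_frequently (f.continuous.tendsto y)
    ((mem_closure_iff_frequently.1 hy).mono fun z hz => (hf z hz).le)

end convex

end Pool.Agent.H57.Oval
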