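import Mathlib
import Pool.Agent.H57.Oval.Convex

open Set Filter Topology

namespace Pool.Agent.H57.Oval

/-- `x` is a point of tangency of the lines through `Q`: no other point of `γ` on the line `Qx` -/
def Tang (γ : Set E2) (Q x : E2) : Prop := ∀ y ∈ γ, ∀ r : ℝ, y = Q + r • (x - Q) → y = x

lemma crossne_of_support (f : E2 →L[ℝ] ℝ) {d n : E2} (hd : f d ≠ 0) (hn : f n = 0) (hn0 : n ≠ 0) :
    cross d n ≠ 0 := by
  intro h
  have h2 : cross n d = 0 := by rw [cross_comm, h, neg_zero]
  obtain ⟨r, hr⟩ := exists_smul_of_cross_eq_zero hn0 h2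
  apply hd
  rw [hr, map_smul, hn, smul_zero]

lemma exists_ker (f : E2 →L[ℝ] ℝ) : ∃ n : E2, n ≠ 0 ∧ f n = 0 := by
  by_cases h : f (EuclideanSpace.single 0 1) = 0
  · refine ⟨EuclideanSpace.single 0 1, ?_, h⟩
    intro h0
    have := congrArg (fun v : E2 => v 0) h0
    simp at this
  · refine ⟨f (EuclideanSpace.single 1 1) • EuclideanSpace.single 0 1 -
      f (EuclideanSpace.single 0 1) • EuclideanSpace.single 1 1, ?_, ?_⟩
    · intro h0
      have := congrArg (fun v : E2 => v 1) h0
      simp at this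
      exact h this
    · simp; ring

theorem exists_tangents {K : Set E2} (hKc : IsCompact K) (hKs : StrictConvex ℝ K)
    (hKi : (interior K).Nonempty) {Q : E2} (hQ : Q ∉ K) :
    ∃ a b : E2, a ∈ frontier K ∧ b ∈ frontier K ∧ a ≠ b ∧
      ∀ x ∈ frontier K, Tang (frontier K) Q x ↔ (x = a ∨ x = b) := by
  have hKcl := hKc.isClosed
  have hKcv : Convex ℝ K := hKs.convex
  obtain ⟨f, s, hfs, hsf⟩ := geometric_hahn_banach_point_closed hKcv hKcl hQ
  -- u positive on K
  have hu : ∀ x ∈ K, 0 < f (x - Q) := fun x hx => by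
    rw [map_sub]; linarith [hsf x hx]
  obtain ⟨x₀, hx₀⟩ := hKi
  have hx₀K := interior_subset hx₀
  set d : E2 := x₀ - Q with hd
  have hfd : 0 < f d := hu x₀ hx₀K
  set m : E2 → ℝ := fun x => cross d (x - Q) / f (x - Q) with hm
  have hmc : ContinuousOn m K := by
    apply ContinuousOn.div
    · exact ((crossL d).continuous.comp (by fun_prop : Continuous fun x : E2 => x - Q)).continuousOn
    · fun_prop
    · intro x hx; exact (hu x hx).ne'
  -- equal slopes mean collinear with Q
  have hcol : ∀ x ∈ K, ∀ y ∈ K, m x = m y → x - Q = (f (x - Q) / f (y - Q)) • (y - Q) := by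
    intro x hx y hy hxy
    have hux := hu x hx
    have huy := hu y hy
    have h1 : cross d (f (y - Q) • (x - Q) - f (x - Q) • (y - Q)) = 0 := by
      rw [cross_sub_right, cross_smul_right, cross_smul_right]
      simp only [hm] at hxy
      rw [div_eq_div_iff hux.ne' huy.ne'] at hxy
      linarith
    have hd0 : d ≠ 0 := by rintro h0; rw [h0, map_zero] at hfd; exact lt_irrefl _ hfd
    obtain ⟨τ, hτ⟩ := exists_smul_of_cross_eq_zero hd0 h1
    have h2 : f (f (y - Q) • (x - Q) - f (x - Q) • (y - Q)) = 0 := by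
      rw [map_sub, map_smul, map_smul]; simp; ring
    rw [hτ, map_smul, smul_eq_mul] at h2
    have hτ0 : τ = 0 := by
      rcases mul_eq_zero.1 h2 with h | h
      · exact h
      · exact absurd h hfd.ne'
    rw [hτ0, zero_smul, sub_eq_zero] at hτ
    rw [div_eq_inv_mul, mul_smul, ← hτ, smul_smul, inv_mul_cancel₀ huy.ne', one_smul]
  have hcol' : ∀ x ∈ K, ∀ y : E2, ∀ r : ℝ, y ∈ K → y = Q + r • (x - Q) → m y = m x := by
    intro x hx y r hy hyr
    have hux := hu x hx
    have huy := hu y hy
    have h1 : y - Q = r • (x - Q) := by rw [hyr]; abel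
    simp only [hm]
    rw [h1, cross_smul_right, map_smul, smul_eq_mul]
    have hr : r ≠ 0 := by
      rintro rfl
      rw [h1, zero_smul, map_zero] at huy
      exact lt_irrefl _ huy
    rw [mul_div_mul_left _ _ hr]
  -- interior points are not extremal
  have hint : ∀ z ∈ interior K, (∃ y ∈ K, m z < m y) ∧ ∃ y ∈ K, m y < m z := by
    intro z hz
    have hzK := interior_subset hz
    obtain ⟨n, hn0, hn⟩ := exists_ker f
    have hc : cross d n ≠ 0 := crossne_of_support f hfd.ne' hn hn0
    have hmove : ∀ s : ℝ, m (z + s • n) = m z + s * (cross d n / f (z - Q)) := by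
      intro s
      have e : z + s • n - Q = (z - Q) + s • n := by abel
      simp only [hm]
      rw [e, map_add, map_smul, hn, smul_zero, add_zero, cross_add_right, cross_smul_right]
      ring
    have hcont : Continuous fun s : ℝ => z + s • n := by fun_prop
    have h0 : ∀ᶠ s in 𝓝 (0 : ℝ), z + s • n ∈ K := by
      have : (fun s : ℝ => z + s • n) 0 ∈ interior K := by simpa using hz
      exact (hcont.continuousAt.eventually_mem (isOpen_interior.mem_nhds this)).mono fun s hs => interior_subset hs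
    obtain ⟨δ, hδ, hδK⟩ := Metric.eventually_nhds_iff.1 h0
    have hp : z + (δ / 2) • n ∈ K := hδK (by simp [abs_of_pos hδ]; linarith)
    have hq : z + (-(δ / 2)) • n ∈ K := hδK (by simp [abs_of_pos hδ]; linarith)
    have huz := hu z hzK
    rcases lt_or_gt_of_ne hc with hneg | hpos
    · have : cross d n / f (z - Q) < 0 := div_neg_of_neg_of_pos hneg huz
      constructor
      · exact ⟨_, hq, by rw [hmove]; nlinarith⟩
      · exact ⟨_, hp, by rw [hmove]; nlinarith⟩
    · have : 0 < cross d n / f (z - Q) := div_pos hpos huz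
      constructor
      · exact ⟨_, hp, by rw [hmove]; nlinarith⟩
      · exact ⟨_, hq, by rw [hmove]; nlinarith⟩
  obtain ⟨a, haK, ha⟩ := hKc.exists_isMaxOn ⟨x₀, hx₀K⟩ hmc
  obtain ⟨b, hbK, hb⟩ := hKc.exists_isMinOn ⟨x₀, hx₀K⟩ hmc
  have haF : a ∈ frontier K := by
    rw [hKcl.frontier_eq]
    refine ⟨haK, fun h => ?_⟩
    obtain ⟨⟨y, hy, hlt⟩, -⟩ := hint a h
    exact absurd (ha hy) (not_le.2 hlt)
  have hbF : b ∈ frontier K := by
    rw [hKcl.frontier_eq]
    refine ⟨hbK, fun h => ?_⟩
    obtain ⟨-, y, hy, hlt⟩ := hint b h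
    exact absurd (hb hy) (not_le.2 hlt)
  have hba : m b < m a := by
    obtain ⟨-, y, hy, hlt⟩ := hint x₀ hx₀
    have h1 : m b ≤ m y := hb hy
    have h2 : m x₀ ≤ m a := ha hx₀K
    linarith
  -- two points of K with the same extremal slope coincide
  have hext : ∀ x ∈ K, ∀ y ∈ K, m x = m y → (m x = m a ∨ m x = m b) → x = y := by
    intro x hx y hy hxy hor
    by_contra hne
    have hz : (1 / 2 : ℝ) • x + (1 / 2 : ℝ) • y ∈ interior K :=
      hKs hx hy hne (by norm_num) (by norm_num) (by norm_num)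
    set z := (1 / 2 : ℝ) • x + (1 / 2 : ℝ) • y with hzdef
    have hzK := interior_subset hz
    have hmz : m z = m y := by
      have h1 := hcol x hx y hy hxy
      refine hcol' y hy z ((f (x - Q) / f (y - Q) + 1) / 2) hzK ?_
      have h2 : x = Q + (f (x - Q) / f (y - Q)) • (y - Q) := by rw [← h1]; abel
      rw [hzdef]
      nth_rw 1 [h2]
      module
    obtain ⟨⟨w, hw, hlt⟩, w', hw', hlt'⟩ := hint z hz
    have h3 : m w ≤ m a := ha hw
    have h4 : m b ≤ m w' := hb hw'
    rcases hor with h | h <;> linarith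
  refine ⟨a, b, haF, hbF, ?_, ?_⟩
  · rintro rfl; exact lt_irrefl _ hba
  intro x hx
  have hxK := hKcl.frontier_subset hx
  constructor
  · intro hT
    by_contra hcon
    push Not at hcon
    have h1 : m x ≠ m a := fun h => hcon.1 (hext x hxK a haK h (Or.inl h))
    have h2 : m x ≠ m b := fun h => hcon.2 (hext x hxK b hbK h (Or.inr h))
    have h3 : m x < m a := lt_of_le_of_ne (ha hxK) h1
    have h4 : m b < m x := lt_of_le_of_ne (hb hxK) (Ne.symm h2)
    -- IVT
    set ψ : ℝ → E2 := fun s => b + s • (a - b) with hψ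
    have hψK : ∀ s ∈ Icc (0 : ℝ) 1, ψ s ∈ K := by
      intro s hs
      have : ψ s = (1 - s) • b + s • a := by simp only [hψ]; module
      rw [this]
      exact hKcv hbK haK (by linarith [hs.2]) hs.1 (by ring)
    have hψc : Continuous ψ := by fun_prop
    have hcon2 : ContinuousOn (m ∘ ψ) (Icc 0 1) := hmc.comp hψc.continuousOn hψK
    have hivt := intermediate_value_Ioo (zero_le_one' ℝ) hcon2
    have e0 : (m ∘ ψ) 0 = m b := by simp [hψ]
    have e1 : (m ∘ ψ) 1 = m a := by simp [hψ]
    rw [e0, e1] at hivt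
    obtain ⟨s, hs, hsx⟩ := hivt ⟨h4, h3⟩
    have hzint : ψ s ∈ interior K := by
      have : ψ s = (1 - s) • b + s • a := by simp only [hψ]; module
      rw [this]
      refine hKs hbK haK ?_ (by linarith [hs.2]) hs.1 (by ring)
      rintro rfl; exact lt_irrefl _ hba
    have hxz : x ≠ ψ s := by
      intro h; rw [← h] at hzint; exact hx.2 hzint
    obtain ⟨t, ht, hy⟩ := exists_beyond hKc hzint hxz
    have h5 := hcol (ψ s) (interior_subset hzint) x hxK hsx
    set ρ := f (ψ s - Q) / f (x - Q) with hρ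
    have h6 : ψ s = Q + ρ • (x - Q) := by rw [← h5]; abel
    have h7 := hT _ hy (1 + t * (ρ - 1)) (by
      rw [h6]
      module)
    have h8 : t • (ψ s - x) = 0 := by
      have : x + t • (ψ s - x) = x + 0 := by rw [h7, add_zero]
      exact add_left_cancel this
    rcases smul_eq_zero.1 h8 with h | h
    · linarith
    · exact hxz (sub_eq_zero.1 h).symm
  · rintro (rfl | rfl)
    · intro y hy r hyr
      exact hext y (hKcl.frontier_subset hy) x hxK (hcol' x hxK y r (hKcl.frontier_subset hy) hyr)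
        (Or.inl (hcol' x hxK y r (hKcl.frontier_subset hy) hyr))
    · intro y hy r hyr
      exact hext y (hKcl.frontier_subset hy) x hxK (hcol' x hxK y r (hKcl.frontier_subset hy) hyr)
        (Or.inr (hcol' x hxK y r (hKcl.frontier_subset hy) hyr))

end Pool.Agent.H57.Oval
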