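import Mathlib
import Pool.Agent.H57.Oval.Tangents
import Pool.Agent.H57.Oval.Defs

open Set Filter Topology
open scoped ContDiff LinearAlgebra.Projectivization

namespace Pool.Agent.H57.Oval

/-- dot product -/
def dot (u v : E2) : ℝ := u 0 * v 0 + u 1 * v 1

/-- the continuous linear functional `dot u ·` -/
noncomputable def dotL (u : E2) : E2 →L[ℝ] ℝ :=
  LinearMap.toContinuousLinearMap
    { toFun := dot u
      map_add' := fun v w => by simp [dot]; ring
      map_smul' := fun r v => by simp [dot]; ring }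

@[simp] lemma dotL_apply (u v : E2) : dotL u v = dot u v := rfl

lemma dot_self_pos {e : E2} (he : e ≠ 0) : 0 < dot e e := by
  have : e 0 ≠ 0 ∨ e 1 ≠ 0 := by
    by_contra hcon
    push Not at hcon
    apply he
    ext i
    fin_cases i <;> simp [hcon]
  unfold dot
  rcases this with h | h
  · have := mul_self_pos.2 h
    nlinarith [mul_self_nonneg (e 1)]
  · have := mul_self_pos.2 h
    nlinarith [mul_self_nonneg (e 0)]

lemma cross_of_slopes {e w1 w2 : E2} (he : e ≠ 0) (h : cross e w1 * dot e w2 = cross e w2 * dot e w1) :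
    cross w2 w1 = 0 := by
  have h1 : dot e e * cross w2 w1 = cross e w1 * dot e w2 - cross e w2 * dot e w1 := by
    simp only [dot, cross]; ring
  rw [h, sub_self] at h1
  rcases mul_eq_zero.1 h1 with h2 | h2
  · exact absurd h2 (dot_self_pos he).ne'
  · exact h2

/-- transfer along the pencil of lines through `R` -/
lemma slope_transfer {c : ℝ → E2} (hc : ContDiff ℝ ∞ c) {s₁ s₂ : ℝ} {R e : E2} {α β : ℝ} (he : e ≠ 0)
    (hα : α ≠ 0) (hβ : β ≠ 0) (h1 : c s₁ - R = α • e) (h2 : c s₂ - R = β • e)
    (hv2 : cross e (deriv c s₂) ≠ 0) :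
    ∃ φ : ℝ → ℝ, φ s₁ = s₂ ∧
      HasDerivAt φ ((cross e (deriv c s₁) / α) / (cross e (deriv c s₂) / β)) s₁ ∧
      ∀ᶠ t in 𝓝 s₁, ∃ r : ℝ, c (φ t) = R + r • (c t - R) := by
  have hee := dot_self_pos he
  set m : ℝ → ℝ := fun t => cross e (c t - R) / dot e (c t - R) with hm
  have hcd : ∀ t, HasStrictDerivAt c (deriv c t) t := fun t =>
    (hc.contDiffAt).hasStrictDerivAt (by simp)
  have hnum : ∀ t, HasStrictDerivAt (fun t => cross e (c t - R)) (cross e (deriv c t)) t := fun t => by
    have := (crossL e).hasStrictFDerivAt (x := c t - R)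
    exact this.comp_hasStrictDerivAt t ((hcd t).sub_const R)
  have hden : ∀ t, HasStrictDerivAt (fun t => dot e (c t - R)) (dot e (deriv c t)) t := fun t => by
    have := (dotL e).hasStrictFDerivAt (x := c t - R)
    exact this.comp_hasStrictDerivAt t ((hcd t).sub_const R)
  have hdot : ∀ τ : ℝ, dot e (τ • e) = τ * dot e e := fun τ => by simp [dot]; ring
  have hcr : ∀ τ : ℝ, cross e (τ • e) = 0 := fun τ => by simp [cross]; ring
  have key : ∀ (s τ : ℝ), τ ≠ 0 → c s - R = τ • e → m s = 0 ∧
      HasStrictDerivAt m (cross e (deriv c s) / (τ * dot e e)) s := by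
    intro s τ hτ hs
    have hne : dot e (c s - R) ≠ 0 := by rw [hs, hdot]; positivity
    constructor
    · simp only [hm]; rw [hs, hcr, zero_div]
    · have := (hnum s).div (hden s) hne
      convert! this using 1
      rw [hs, hcr, hdot]
      field_simp
      ring
  obtain ⟨hm1, hd1⟩ := key s₁ α hα h1
  obtain ⟨hm2, hd2⟩ := key s₂ β hβ h2
  have hne2 : cross e (deriv c s₂) / (β * dot e e) ≠ 0 := by
    have := hee.ne'
    positivity
  set L := HasStrictDerivAt.localInverse m _ s₂ hd2 hne2 with hL
  have hL0 : L 0 = s₂ := by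
    have := (HasStrictDerivAt.eventually_left_inverse hd2 hne2).self_of_nhds
    rw [hm2] at this
    exact this
  have hLd : HasStrictDerivAt L (cross e (deriv c s₂) / (β * dot e e))⁻¹ 0 := by
    have := hd2.to_localInverse hne2
    rw [hm2] at this
    exact this
  have hLr : ∀ᶠ y in 𝓝 (0 : ℝ), m (L y) = y := by
    have := HasStrictDerivAt.eventually_right_inverse hd2 hne2
    rw [hm2] at this
    exact this
  refine ⟨fun t => L (m t), by simp only [hm1, hL0], ?_, ?_⟩
  · have h3 : HasStrictDerivAt L (cross e (deriv c s₂) / (β * dot e e))⁻¹ (m s₁) := by rw [hm1]; exact hLd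
    have := h3.hasDerivAt.comp s₁ hd1.hasDerivAt
    convert! this using 1
    have := hee.ne'
    field_simp
  · have hmc : Tendsto m (𝓝 s₁) (𝓝 0) := by
      have := hd1.hasDerivAt.continuousAt.tendsto
      rwa [hm1] at this
    have hLc : Tendsto (fun t => L (m t)) (𝓝 s₁) (𝓝 s₂) := by
      have := hLd.hasDerivAt.continuousAt.tendsto
      rw [hL0] at this
      exact this.comp hmc
    have hdc : Continuous fun t => dot e (c t - R) :=
      (dotL e).continuous.comp (hc.continuous.sub continuous_const)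
    have hn1 : ∀ᶠ t in 𝓝 s₁, dot e (c t - R) ≠ 0 := by
      refine hdc.continuousAt.eventually_ne ?_
      simp only [h1, hdot]
      have := hee.ne'
      positivity
    have hn2 : ∀ᶠ s in 𝓝 s₂, dot e (c s - R) ≠ 0 := by
      refine hdc.continuousAt.eventually_ne ?_
      simp only [h2, hdot]
      have := hee.ne'
      positivity
    filter_upwards [hmc.eventually hLr, hn1, hLc.eventually hn2] with t ht1 ht2 ht3
    have h3 : cross e (c (L (m t)) - R) * dot e (c t - R) = cross e (c t - R) * dot e (c (L (m t)) - R) := by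
      simp only [hm] at ht1
      rw [div_eq_div_iff] at ht1
      · exact ht1
      · exact ht3
      · exact ht2
    have h4 := cross_of_slopes he h3
    have h5 : c t - R ≠ 0 := by
      intro h0
      apply ht2
      rw [h0]; simp [dot]
    obtain ⟨r, hr⟩ := exists_smul_of_cross_eq_zero h5 h4
    exact ⟨r, by rw [← hr]; abel⟩

section sp

variable {K : Set E2}

/-- uniqueness of the second intersection point -/
lemma sp_eq (hKc : IsClosed K) (hKs : StrictConvex ℝ K) {P x y : E2}
    (hx : x ∈ frontier K) (hy : y ∈ frontier K) (hyx : y ≠ x) {r : ℝ} (hr : y = P + r • (x - P)) :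
    secondPoint (frontier K) P x = y := by
  have hex : ∃ y, y ∈ frontier K ∧ y ≠ x ∧ ∃ r : ℝ, y = P + r • (x - P) := ⟨y, hy, hyx, r, hr⟩
  unfold secondPoint
  rw [dif_pos hex]
  obtain ⟨h1, h2, h3⟩ := hex.choose_spec
  set y' := hex.choose
  obtain ⟨r', hr'⟩ := h3
  have hr1 : r - 1 ≠ 0 := by
    intro h
    apply hyx
    rw [hr, show r = 1 by linarith]; simp
  have h4 : y' = x + ((r' - 1) / (r - 1)) • (y - x) := by
    have e1 : y - x = (r - 1) • (x - P) := by rw [hr]; module
    rw [e1, smul_smul, div_mul_cancel₀ _ hr1, hr']; module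
  rcases no_three hKc hKs hx hy h1 (Ne.symm hyx) h4 with h | h
  · exact absurd h h2
  · exact h

lemma sp_self {γ : Set E2} {P x : E2} (h : Tang γ P x) : secondPoint γ P x = x := by
  unfold secondPoint
  rw [dif_neg]
  rintro ⟨y, hy, hyx, r, hr⟩
  exact hyx (h y hy r hr)

/-- the basic specification -/
lemma sp_spec {γ : Set E2} {P x : E2} (hx : x ∈ γ) :
    secondPoint γ P x ∈ γ ∧ ∃ r : ℝ, secondPoint γ P x = P + r • (x - P) := by
  unfold secondPoint
  split_ifs with h
  · obtain ⟨h1, h2, h3⟩ := h.choose_spec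
    exact ⟨h1, h3⟩
  · exact ⟨hx, 1, by simp⟩

lemma tang_of_sp_self {γ : Set E2} {P x : E2} (h : secondPoint γ P x = x) : Tang γ P x := by
  intro y hy r hr
  by_contra hne
  have hex : ∃ y, y ∈ γ ∧ y ≠ x ∧ ∃ r : ℝ, y = P + r • (x - P) := ⟨y, hy, hne, r, hr⟩
  unfold secondPoint at h
  rw [dif_pos hex] at h
  exact hex.choose_spec.2.1 h

lemma sp_invol (hKc : IsClosed K) (hKs : StrictConvex ℝ K) {P x : E2} (hP : P ∉ frontier K)
    (hx : x ∈ frontier K) :
    secondPoint (frontier K) P (secondPoint (frontier K) P x) = x := by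
  by_cases h : secondPoint (frontier K) P x = x
  · rw [h, h]
  · obtain ⟨h1, r, hr⟩ := sp_spec (P := P) hx
    set y := secondPoint (frontier K) P x with hy
    have hr0 : r ≠ 0 := by
      rintro rfl
      rw [zero_smul, add_zero] at hr
      rw [hr] at h1
      exact hP h1
    refine sp_eq hKc hKs h1 hx (Ne.symm h) (r := r⁻¹) ?_
    have : y - P = r • (x - P) := by rw [hr]; abel
    rw [this, smul_smul, inv_mul_cancel₀ hr0, one_smul]; abel

end sp

end Pool.Agent.H57.Oval
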