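import Mathlib
import Pool.Agent.H57.Oval.Second

open Set Filter Topology
open scoped ContDiff LinearAlgebra.Projectivization

namespace Pool.Agent.H57.Oval

variable {K : Set E2} {c : ℝ → E2}

/-- lines through interior points are transversal to the curve -/
lemma transversal (hoc : IsOval c) (hKc : IsCompact K) (hKs : StrictConvex ℝ K)
    (hKi : (interior K).Nonempty) (hKf : frontier K = range c) {P : E2} (hP : P ∈ interior K) (s : ℝ) :
    cross (c s - P) (deriv c s) ≠ 0 := by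
  have hcs : c s ∈ frontier K := by rw [hKf]; exact mem_range_self s
  obtain ⟨f, hf1, hf2⟩ := exists_support hKc.isClosed hKs.convex hKi hcs
  have hcd : HasDerivAt c (deriv c s) s := (hoc.smooth.differentiable (by simp) s).hasDerivAt
  have h1 : HasDerivAt (fun t => f (c t)) (f (deriv c s)) s :=
    f.hasFDerivAt.comp_hasDerivAt s hcd
  have hmax : IsLocalMax (fun t => f (c t)) s := by
    refine Eventually.of_forall fun t => hf2 _ ?_
    have : c t ∈ frontier K := by rw [hKf]; exact mem_range_self t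
    exact hKc.isClosed.frontier_subset this
  have h0 : f (deriv c s) = 0 := hmax.hasDerivAt_eq_zero h1
  have hfP : f (c s - P) ≠ 0 := by
    rw [map_sub]
    have := hf1 P hP
    linarith
  exact crossne_of_support f hfP h0 (hoc.regular s)

lemma rho_pos (hKs : StrictConvex ℝ K) {Q x x' : E2} (hQ : Q ∉ K) (hx : x ∈ K) (hx' : x' ∈ K)
    {ρ : ℝ} (hρ : x' - Q = ρ • (x - Q)) : 0 < ρ := by
  by_contra hcon
  push Not at hcon
  apply hQ
  have h1 : 0 < 1 - ρ := by linarith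
  have e : Q = (1 / (1 - ρ)) • x' + (-ρ / (1 - ρ)) • x := by
    have e1 : x' = Q + ρ • (x - Q) := by rw [← hρ]; abel
    have e2 : Q = ((1 - ρ)⁻¹ * (1 - ρ)) • Q := by rw [inv_mul_cancel₀ h1.ne', one_smul]
    rw [e1, div_eq_mul_inv, div_eq_mul_inv]
    nth_rw 1 [e2]
    module
  rw [e]
  exact hKs.convex hx' hx (by positivity) (div_nonneg (by linarith) h1.le) (by field_simp; ring)

lemma harm_combo {Q x x' : E2} {ρ : ℝ} (hρ0 : 0 < ρ) (hρ : x' - Q = ρ • (x - Q)) :
    Q + (2 * ρ / (1 + ρ)) • (x - Q) = (ρ / (1 + ρ)) • x + (1 / (1 + ρ)) • x' := by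
  have e1 : x' = Q + ρ • (x - Q) := by rw [← hρ]; abel
  have h1 : 1 + ρ ≠ 0 := by positivity
  have e2 : Q = ((1 + ρ)⁻¹ * (1 + ρ)) • Q := by rw [inv_mul_cancel₀ h1, one_smul]
  rw [e1, div_eq_mul_inv, div_eq_mul_inv, div_eq_mul_inv]
  nth_rw 1 [e2]
  module

lemma harm_interior (hKs : StrictConvex ℝ K) {Q x x' : E2} (hx : x ∈ K) (hx' : x' ∈ K)
    (hne : x' ≠ x) {ρ : ℝ} (hρ0 : 0 < ρ) (hρ : x' - Q = ρ • (x - Q)) :
    Q + (2 * ρ / (1 + ρ)) • (x - Q) ∈ interior K := by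
  rw [harm_combo hρ0 hρ]
  exact hKs hx hx' (Ne.symm hne) (by positivity) (by positivity) (by field_simp; ring)

/-- Local description of the pencil map near the fixed point `x = c t₁` in the harmonic case:
it is given by a function with derivative `-1`. -/
lemma local_map (hoc : IsOval c) (hKc : IsCompact K) (hKs : StrictConvex ℝ K)
    (hKi : (interior K).Nonempty) (hKf : frontier K = range c) {Q : E2} (hQ : Q ∉ K)
    {t₁ t₂ : ℝ} (hne : c t₂ ≠ c t₁) {ρ : ℝ} (hρ : c t₂ - Q = ρ • (c t₁ - Q)) {P : E2}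
    (hP : P = Q + (2 * ρ / (1 + ρ)) • (c t₁ - Q)) :
    ∃ f : ℝ → ℝ, f t₁ = t₁ ∧ HasDerivAt f (-1) t₁ ∧
      ∀ᶠ t in 𝓝 t₁, pencilMap (range c) P Q (c t) = c (f t) := by
  have hfr : ∀ t, c t ∈ frontier K := fun t => by rw [hKf]; exact mem_range_self t
  have hmemK : ∀ t, c t ∈ K := fun t => hKc.isClosed.frontier_subset (hfr t)
  have hρ0 : 0 < ρ := rho_pos hKs hQ (hmemK t₁) (hmemK t₂) hρ
  have hPi : P ∈ interior K := by
    rw [hP]; exact harm_interior hKs (hmemK t₁) (hmemK t₂) hne hρ0 hρ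
  set e : E2 := c t₁ - Q with he
  have he0 : e ≠ 0 := by
    intro h
    apply hQ
    have : Q = c t₁ := by rw [he, sub_eq_zero] at h; exact h.symm
    rw [this]; exact hmemK t₁
  have hρ1 : ρ ≠ 1 := by
    rintro rfl
    apply hne
    rw [one_smul] at hρ
    rw [he] at hρ
    exact sub_left_injective hρ
  have h1ρ : 1 + ρ ≠ 0 := by positivity
  have hd1 : c t₁ - P = ((1 - ρ) / (1 + ρ)) • e := by
    have : c t₁ = Q + e := by rw [he]; abel
    have h2 : (1 - ρ) / (1 + ρ) = 1 - 2 * ρ / (1 + ρ) := by field_simp; ring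
    rw [hP, this, h2]; module
  have hd2 : c t₂ - P = (ρ * (ρ - 1) / (1 + ρ)) • e := by
    have : c t₂ = Q + ρ • e := by rw [← hρ]; abel
    have h2 : ρ * (ρ - 1) / (1 + ρ) = ρ - 2 * ρ / (1 + ρ) := by field_simp; ring
    rw [hP, this, h2]; module
  have hα : (1 - ρ) / (1 + ρ) ≠ 0 := div_ne_zero (sub_ne_zero.2 (Ne.symm hρ1)) h1ρ
  have hβ : ρ * (ρ - 1) / (1 + ρ) ≠ 0 := div_ne_zero (mul_ne_zero hρ0.ne' (sub_ne_zero.2 hρ1)) h1ρ
  have hv1 : cross e (deriv c t₁) ≠ 0 := by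
    have := transversal hoc hKc hKs hKi hKf hPi t₁
    rw [hd1, cross_smul_left] at this
    exact right_ne_zero_of_mul this
  have hv2 : cross e (deriv c t₂) ≠ 0 := by
    have := transversal hoc hKc hKs hKi hKf hPi t₂
    rw [hd2, cross_smul_left] at this
    exact right_ne_zero_of_mul this
  obtain ⟨φ, hφ1, hφ2, hφ3⟩ := slope_transfer hoc.smooth he0 hα hβ hd1 hd2 hv2
  obtain ⟨ψ, hψ1, hψ2, hψ3⟩ := slope_transfer hoc.smooth (R := Q) he0 hρ0.ne' one_ne_zero hρ
    (by rw [one_smul]) hv1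
  refine ⟨fun t => ψ (φ t), by simp only [hφ1, hψ1], ?_, ?_⟩
  · have h3 : HasDerivAt ψ ((cross e (deriv c t₂) / ρ) / (cross e (deriv c t₁) / 1)) (φ t₁) := by
      rw [hφ1]; exact hψ2
    have := h3.comp t₁ hφ2
    convert! this using 1
    have h4 : (1 - ρ) ≠ 0 := sub_ne_zero.2 (Ne.symm hρ1)
    have h5 : (ρ - 1) ≠ 0 := sub_ne_zero.2 hρ1
    have h6 := hρ0.ne'
    field_simp
    ring
  · have hφc : Tendsto φ (𝓝 t₁) (𝓝 t₂) := by
      have := hφ2.continuousAt.tendsto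
      rwa [hφ1] at this
    have hψc : Tendsto ψ (𝓝 t₂) (𝓝 t₁) := by
      have := hψ2.continuousAt.tendsto
      rwa [hψ1] at this
    have hcc := hoc.smooth.continuous
    have hev1 : ∀ᶠ t in 𝓝 t₁, c (φ t) ≠ c t := by
      have h1 : Tendsto (fun t => c (φ t) - c t) (𝓝 t₁) (𝓝 (c t₂ - c t₁)) :=
        ((hcc.tendsto t₂).comp hφc).sub (hcc.tendsto t₁)
      have := h1.eventually_ne (sub_ne_zero.2 hne)
      exact this.mono fun t ht => sub_ne_zero.1 ht
    have hev2 : ∀ᶠ s in 𝓝 t₂, c (ψ s) ≠ c s := by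
      have h1 : Tendsto (fun t => c (ψ t) - c t) (𝓝 t₂) (𝓝 (c t₁ - c t₂)) :=
        ((hcc.tendsto t₁).comp hψc).sub (hcc.tendsto t₂)
      have := h1.eventually_ne (sub_ne_zero.2 (Ne.symm hne))
      exact this.mono fun t ht => sub_ne_zero.1 ht
    filter_upwards [hev1, hφ3, hφc.eventually hev2, hφc.eventually hψ3] with t h1 h2 h3 h4
    obtain ⟨r, hr⟩ := h2
    obtain ⟨r', hr'⟩ := h4
    unfold pencilMap
    have e1 : secondPoint (range c) P (c t) = c (φ t) := by
      rw [← hKf]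
      exact sp_eq hKc.isClosed hKs (hfr t) (hfr _) h1 hr
    rw [e1, ← hKf]
    exact sp_eq hKc.isClosed hKs (hfr _) (hfr _) h3 hr'

/-- determinant on `Fin 2 → ℝ` -/
def det2 (u w : Fin 2 → ℝ) : ℝ := u 0 * w 1 - u 1 * w 0

lemma det2_smul_right (u w : Fin 2 → ℝ) (r : ℝ) : det2 u (r • w) = r * det2 u w := by
  simp [det2]; ring
lemma det2_smul_left (u w : Fin 2 → ℝ) (r : ℝ) : det2 (r • u) w = r * det2 u w := by
  simp [det2]; ring
lemma det2_add_right (u w v : Fin 2 → ℝ) : det2 u (w + v) = det2 u w + det2 u v := by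
  simp [det2]; ring
lemma det2_self (u : Fin 2 → ℝ) : det2 u u = 0 := by simp [det2]; ring
lemma det2_comm (u w : Fin 2 → ℝ) : det2 u w = - det2 w u := by simp [det2]; ring

lemma det2_repr {u w : Fin 2 → ℝ} (h : det2 u w ≠ 0) (v : Fin 2 → ℝ) :
    v = (det2 v w / det2 u w) • u + (det2 u v / det2 u w) • w := by
  ext i
  fin_cases i
  · simp; field_simp; simp [det2]; ring
  · simp; field_simp; simp [det2]; ring

lemma exists_smul_of_det2 {u w : Fin 2 → ℝ} (hu : u ≠ 0) (h : det2 u w = 0) : ∃ r : ℝ, r • u = w := by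
  have h' : u 0 * w 1 = u 1 * w 0 := by unfold det2 at h; linarith
  have : u 0 ≠ 0 ∨ u 1 ≠ 0 := by
    by_contra hcon
    push Not at hcon
    apply hu
    ext i
    fin_cases i <;> simp [hcon]
  rcases this with h0 | h1
  · refine ⟨w 0 / u 0, ?_⟩
    ext i
    fin_cases i
    · simp; field_simp
    · simp; field_simp; linarith
  · refine ⟨w 1 / u 1, ?_⟩
    ext i
    fin_cases i
    · simp; field_simp; linarith
    · simp; field_simp

/-- Algebraic/analytic core: a map conjugate to a Mobius map, with multiplier `-1` at a fixed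
point and a second fixed point, is an involution. -/
lemma conj_involution {F : E2 → E2} (hconj : ConjToMobius c F) (hF : ∀ y ∈ range c, F y ∈ range c)
    {t₁ t₂ : ℝ} (hne : c t₂ ≠ c t₁) (hfix1 : F (c t₁) = c t₁) (hfix2 : F (c t₂) = c t₂)
    {f : ℝ → ℝ} (hf1 : f t₁ = t₁) (hf2 : HasDerivAt f (-1) t₁) (hf3 : ∀ᶠ t in 𝓝 t₁, F (c t) = c (f t)) :
    ∀ y ∈ range c, F (F y) = y := by
  obtain ⟨h, M, ⟨hbij, H, hHs, hHw, hHc⟩, hMdet, hM⟩ := hconj
  set A : (Fin 2 → ℝ) →ₗ[ℝ] (Fin 2 → ℝ) := M.mulVecLin with hAdef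
  have hAM : ∀ v, M.mulVec v = A v := fun v => rfl
  have hHne : ∀ t, H t ≠ 0 := fun t => (hHc t).1
  have hmk : ∀ t, h (c t) = Projectivization.mk ℝ (H t) (hHne t) := fun t => (hHc t).2
  have hAne : ∀ v : Fin 2 → ℝ, v ≠ 0 → A v ≠ 0 := fun v hv h0 =>
    hMdet (Matrix.exists_mulVec_eq_zero_iff.1 ⟨v, hv, h0⟩)
  have hA : ∀ x ∈ range c, ∀ (v : Fin 2 → ℝ) (hv : v ≠ 0), h x = Projectivization.mk ℝ v hv →
      h (F x) = Projectivization.mk ℝ (A v) (hAne v hv) := fun x hx v hv hxv =>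
    (hM x hx v hv hxv).2
  -- whenever F (c t) = c s, A (H t) is a multiple of H s
  have hrel : ∀ t s, F (c t) = c s → ∃ a : ℝ, a • H s = A (H t) := by
    intro t s hts
    have h1 := hA (c t) (mem_range_self t) _ _ (hmk t)
    rw [hts, hmk] at h1
    obtain ⟨a, ha⟩ := (Projectivization.mk_eq_mk_iff' ℝ _ _ (hAne _ (hHne t)) (hHne s)).1 h1.symm
    exact ⟨a, ha⟩
  obtain ⟨l₁, hl₁⟩ := hrel t₁ t₁ hfix1
  obtain ⟨l₂, hl₂⟩ := hrel t₂ t₂ hfix2
  set H₁ := H t₁
  set H₂ := H t₂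
  have hdet : det2 H₁ H₂ ≠ 0 := by
    intro h0
    obtain ⟨r, hr⟩ := exists_smul_of_det2 (hHne t₁) h0
    have : h (c t₂) = h (c t₁) := by
      rw [hmk, hmk]
      exact (Projectivization.mk_eq_mk_iff' ℝ _ _ (hHne t₂) (hHne t₁)).2 ⟨r, hr⟩
    exact hne (hbij.injOn (mem_range_self _) (mem_range_self _) this)
  have hl₁0 : l₁ ≠ 0 := by
    rintro rfl
    rw [zero_smul] at hl₁
    exact hAne _ (hHne t₁) hl₁.symm
  have hAv : ∀ v, A v = (det2 v H₂ / det2 H₁ H₂ * l₁) • H₁ + (det2 H₁ v / det2 H₁ H₂ * l₂) • H₂ := by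
    intro v
    conv_lhs => rw [det2_repr hdet v]
    rw [map_add, map_smul, map_smul, ← hl₁, ← hl₂, smul_smul, smul_smul]
  have hb : ∀ v, det2 H₁ (A v) = l₂ * det2 H₁ v := by
    intro v
    rw [hAv v, det2_add_right, det2_smul_right, det2_smul_right, det2_self]
    field_simp
    ring
  have ha : ∀ v, det2 (A v) H₂ = l₁ * det2 v H₂ := by
    intro v
    rw [hAv v, det2_comm, det2_add_right, det2_smul_right, det2_smul_right, det2_self, det2_comm H₂ H₁]
    field_simp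
    ring
  -- the local coordinate
  set s : ℝ → ℝ := fun t => det2 H₁ (H t) / det2 (H t) H₂ with hs
  have hH0 : ∀ t, HasDerivAt (fun t => H t 0) (deriv H t 0) t := fun t =>
    hasDerivAt_pi.1 (hHs.differentiable (by simp) t).hasDerivAt 0
  have hH1 : ∀ t, HasDerivAt (fun t => H t 1) (deriv H t 1) t := fun t =>
    hasDerivAt_pi.1 (hHs.differentiable (by simp) t).hasDerivAt 1
  have hden : det2 (H t₁) H₂ ≠ 0 := hdet
  have hsd : HasDerivAt s (det2 H₁ (deriv H t₁) / det2 H₁ H₂) t₁ := by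
    have hn : HasDerivAt (fun t => det2 H₁ (H t)) (det2 H₁ (deriv H t₁)) t₁ := by
      unfold det2
      exact ((hH1 t₁).const_mul _).sub ((hH0 t₁).const_mul _)
    have hd : HasDerivAt (fun t => det2 (H t) H₂) (det2 (deriv H t₁) H₂) t₁ := by
      unfold det2
      exact ((hH0 t₁).mul_const _).sub ((hH1 t₁).mul_const _)
    have := hn.div hd hden
    convert! this using 1
    have e0 : det2 H₁ (H t₁) = 0 := det2_self _
    rw [e0, zero_mul, sub_zero]
    change det2 H₁ (deriv H t₁) / det2 H₁ H₂ = det2 H₁ (deriv H t₁) * det2 H₁ H₂ / (det2 H₁ H₂) ^ 2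
    field_simp
  have hkap : det2 H₁ (deriv H t₁) / det2 H₁ H₂ ≠ 0 := div_ne_zero (hHw t₁) hdet
  have hrelS : ∀ᶠ t in 𝓝 t₁, s (f t) = (l₂ / l₁) * s t := by
    have hcont : Continuous fun t => det2 (H t) H₂ := by
      have := hHs.continuous
      unfold det2
      fun_prop
    have hn1 : ∀ᶠ t in 𝓝 t₁, det2 (H t) H₂ ≠ 0 := hcont.continuousAt.eventually_ne hden
    filter_upwards [hf3, hn1] with t ht1 ht2
    obtain ⟨a, ha'⟩ := hrel t (f t) ht1
    have ha0 : a ≠ 0 := by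
      rintro rfl
      rw [zero_smul] at ha'
      exact hAne _ (hHne t) ha'.symm
    have e1 : a * det2 H₁ (H (f t)) = l₂ * det2 H₁ (H t) := by
      rw [← det2_smul_right, ha', hb]
    have e2 : a * det2 (H (f t)) H₂ = l₁ * det2 (H t) H₂ := by
      rw [← det2_smul_left, ha', ha]
    simp only [hs]
    have e3 : det2 (H (f t)) H₂ ≠ 0 := by
      intro h0
      rw [h0, mul_zero] at e2
      exact (mul_ne_zero hl₁0 ht2) e2.symm
    rw [div_mul_div_comm, div_eq_div_iff e3 (mul_ne_zero hl₁0 ht2)]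
    have : a * (det2 H₁ (H (f t)) * (l₁ * det2 (H t) H₂)) = a * (l₂ * det2 H₁ (H t) * det2 (H (f t)) H₂) := by
      calc a * (det2 H₁ (H (f t)) * (l₁ * det2 (H t) H₂)) = (a * det2 H₁ (H (f t))) * (l₁ * det2 (H t) H₂) := by ring
        _ = (l₂ * det2 H₁ (H t)) * (a * det2 (H (f t)) H₂) := by rw [e1, e2]
        _ = _ := by ring
    exact mul_left_cancel₀ ha0 this
  have hlam : l₂ = - l₁ := by
    have h1 : HasDerivAt (fun t => s (f t)) (det2 H₁ (deriv H t₁) / det2 H₁ H₂ * (-1)) t₁ := by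
      have h3 : HasDerivAt s (det2 H₁ (deriv H t₁) / det2 H₁ H₂) (f t₁) := by rw [hf1]; exact hsd
      exact h3.comp t₁ hf2
    have h2 : HasDerivAt (fun t => (l₂ / l₁) * s t) ((l₂ / l₁) * (det2 H₁ (deriv H t₁) / det2 H₁ H₂)) t₁ :=
      hsd.const_mul _
    have h3 := h1.congr_of_eventuallyEq (hrelS.mono fun t ht => ht.symm)
    have h4 := h3.unique h2
    have h5 : l₂ / l₁ = -1 := by
      have : (l₂ / l₁) * (det2 H₁ (deriv H t₁) / det2 H₁ H₂) = (-1) * (det2 H₁ (deriv H t₁) / det2 H₁ H₂) := by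
        rw [← h4]; ring
      exact mul_right_cancel₀ hkap this
    rw [div_eq_iff hl₁0] at h5
    linarith
  have hAA : ∀ v, A (A v) = (l₁ ^ 2) • v := by
    intro v
    rw [det2_repr hdet (A (A v)), ha, ha, hb, hb, hlam]
    conv_rhs => rw [det2_repr hdet v]
    rw [smul_add, smul_smul, smul_smul]
    congr 2 <;> ring
  intro y hy
  obtain ⟨t, rfl⟩ := hy
  have hFt := hF (c t) (mem_range_self t)
  have hFFt := hF _ hFt
  refine hbij.injOn hFFt (mem_range_self t) ?_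
  have h1 := hA (c t) (mem_range_self t) _ _ (hmk t)
  rw [hA _ hFt _ _ h1, hmk]
  refine (Projectivization.mk_eq_mk_iff' ℝ _ _ _ _).2 ⟨l₁ ^ 2, (hAA _).symm⟩

/-- In the harmonic situation the pencil map is an involution of the oval. -/
theorem harmonic_involution (hoc : IsOval c) (hKc : IsCompact K) (hKs : StrictConvex ℝ K)
    (hKi : (interior K).Nonempty) (hKf : frontier K = range c) {Q : E2} (hQ : Q ∉ K)
    {t₁ t₂ : ℝ} (hne : c t₂ ≠ c t₁) {ρ : ℝ} (hρ : c t₂ - Q = ρ • (c t₁ - Q)) {P : E2}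
    (hP : P = Q + (2 * ρ / (1 + ρ)) • (c t₁ - Q))
    (hconj : ConjToMobius c (pencilMap (range c) P Q)) :
    ∀ y ∈ range c, pencilMap (range c) P Q (pencilMap (range c) P Q y) = y := by
  have hfr : ∀ t, c t ∈ frontier K := fun t => by rw [hKf]; exact mem_range_self t
  have hmemK : ∀ t, c t ∈ K := fun t => hKc.isClosed.frontier_subset (hfr t)
  have hρ0 : 0 < ρ := rho_pos hKs hQ (hmemK t₁) (hmemK t₂) hρ
  obtain ⟨f, hf1, hf2, hf3⟩ := local_map hoc hKc hKs hKi hKf hQ hne hρ hP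
  have hPi : P ∈ interior K := by
    rw [hP]; exact harm_interior hKs (hmemK t₁) (hmemK t₂) hne hρ0 hρ
  have hPf : P ∉ frontier K := fun h => h.2 hPi
  have hQf : Q ∉ frontier K := fun h => hQ (hKc.isClosed.frontier_subset h)
  have hFmem : ∀ y ∈ range c, pencilMap (range c) P Q y ∈ range c := by
    intro y hy
    exact (sp_spec (sp_spec hy).1).1
  have hfix1 : pencilMap (range c) P Q (c t₁) = c t₁ := by
    have := hf3.self_of_nhds
    rwa [hf1] at this
  -- second fixed point: P σ maps c t₂ to c t₁ and back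
  have e1 : secondPoint (range c) P (c t₁) = c t₂ := by
    rw [← hKf]
    have hcomb := harm_combo hρ0 hρ
    rw [← hP] at hcomb
    have h1ρ : 1 + ρ ≠ 0 := by positivity
    refine sp_eq hKc.isClosed hKs (hfr t₁) (hfr t₂) hne (r := -ρ) ?_
    have : (1 + ρ) • P = ρ • c t₁ + c t₂ := by
      rw [hcomb, smul_add, smul_smul, smul_smul]
      congr 1
      · congr 1; field_simp
      · rw [mul_one_div, div_self h1ρ, one_smul]
    have h2 : c t₂ = (1 + ρ) • P - ρ • c t₁ := by rw [this]; abel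
    rw [h2]; module
  have e2 : secondPoint (range c) P (c t₂) = c t₁ := by
    rw [← e1, ← hKf]
    exact sp_invol hKc.isClosed hKs hPf (hfr t₁)
  have hfix2 : pencilMap (range c) P Q (c t₂) = c t₂ := by
    unfold pencilMap at hfix1 ⊢
    rw [e1] at hfix1
    rw [e2, ← hfix1, ← hKf]
    exact sp_invol hKc.isClosed hKs hQf (hfr t₂)
  exact conj_involution hconj hFmem hne hfix1 hfix2 hf1 hf2 hf3

end Pool.Agent.H57.Oval
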