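import Mathlib
import Pool.Agent.H57.Oval.Involution

open Set Filter Topology
open scoped ContDiff LinearAlgebra.Projectivization

namespace Pool.Agent.H57.Oval

variable {K : Set E2} {c : ℝ → E2}

/-- the hypothesis of the problem -/
def AllConj (c : ℝ → E2) : Prop :=
  ∀ P Q : EuclideanSpace ℝ (Fin 2), P ≠ Q → P ∉ range c → Q ∉ range c →
    (∃ z ∈ range c, ∃ r : ℝ, z = P + r • (Q - P)) → ConjToMobius c (pencilMap (range c) P Q)

/-- The harmonic conjugate of an exterior point with respect to the two points of a secant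
lies on the contact chord. -/
theorem contact (hoc : IsOval c) (hKc : IsCompact K) (hKs : StrictConvex ℝ K)
    (hKi : (interior K).Nonempty) (hKf : frontier K = range c) (hyp : AllConj c)
    {Q a b : E2} (hQ : Q ∉ K) (ha : a ∈ frontier K)
    (hT : ∀ x ∈ frontier K, Tang (frontier K) Q x ↔ (x = a ∨ x = b))
    {x x' : E2} (hx : x ∈ frontier K) (hx' : x' ∈ frontier K) (hne : x' ≠ x) {ρ : ℝ}
    (hρ : x' - Q = ρ • (x - Q)) :
    0 < ρ ∧ ∃ s : ℝ, (ρ / (1 + ρ)) • x + (1 / (1 + ρ)) • x' = a + s • (b - a) := by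
  have hcl := hKc.isClosed
  have hxK := hcl.frontier_subset hx
  have hxK' := hcl.frontier_subset hx'
  have hρ0 : 0 < ρ := rho_pos hKs hQ hxK hxK' hρ
  refine ⟨hρ0, ?_⟩
  have hPi := harm_interior hKs hxK hxK' hne hρ0 hρ
  have hcomb := harm_combo hρ0 hρ
  rw [hcomb] at hPi
  set P : E2 := (ρ / (1 + ρ)) • x + (1 / (1 + ρ)) • x' with hP
  have hPf : P ∉ frontier K := fun h => h.2 hPi
  have hQf : Q ∉ frontier K := fun h => hQ (hcl.frontier_subset h)
  have hPQ : P ≠ Q := by
    intro h; apply hQ; rw [← h]; exact interior_subset hPi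
  obtain ⟨t₁, ht₁⟩ : x ∈ range c := by rw [← hKf]; exact hx
  obtain ⟨t₂, ht₂⟩ : x' ∈ range c := by rw [← hKf]; exact hx'
  have hxQ : x ≠ Q := by rintro rfl; exact hQ hxK
  have hline : ∃ z ∈ range c, ∃ r : ℝ, z = P + r • (Q - P) := by
    refine ⟨x, by rw [← hKf]; exact hx, 1 - (1 + ρ) / (2 * ρ), ?_⟩
    have h1 : P - Q = (2 * ρ / (1 + ρ)) • (x - Q) := by rw [← hcomb]; abel
    have h2 : x - Q = ((1 + ρ) / (2 * ρ)) • (P - Q) := by
      rw [h1, smul_smul]
      have : (1 + ρ) / (2 * ρ) * (2 * ρ / (1 + ρ)) = 1 := by field_simp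
      rw [this, one_smul]
    have h3 : x = Q + ((1 + ρ) / (2 * ρ)) • (P - Q) := by rw [← h2]; abel
    nth_rw 1 [h3]
    module
  have hconj := hyp P Q hPQ (by rw [← hKf]; exact hPf) (by rw [← hKf]; exact hQf) hline
  have hinv := harmonic_involution hoc hKc hKs hKi hKf hQ (t₁ := t₁) (t₂ := t₂) (ρ := ρ) (P := P)
    (by rw [ht₁, ht₂]; exact hne) (by rw [ht₁, ht₂]; exact hρ) (by rw [ht₁, hcomb]) hconj
  rw [← hKf] at hinv
  -- the second intersection point of the line aP
  have haP : a ≠ P := by rintro rfl; exact hPf ha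
  obtain ⟨s, hs, hy⟩ := exists_beyond hKc hPi haP
  set y : E2 := a + s • (P - a) with hydef
  have hya : y ≠ a := by
    intro h
    have : s • (P - a) = 0 := by
      have : a + s • (P - a) = a + 0 := by rw [← hydef, h, add_zero]
      exact add_left_cancel this
    rcases smul_eq_zero.1 this with h | h
    · linarith
    · exact haP (sub_eq_zero.1 h).symm
  have hσa : secondPoint (frontier K) P a = y :=
    sp_eq hcl hKs ha hy hya (r := 1 - s) (by rw [hydef]; module)
  have hTa : Tang (frontier K) Q a := (hT a ha).2 (Or.inl rfl)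
  have hQa : secondPoint (frontier K) Q a = a := sp_self hTa
  have h1 := hinv a ha
  unfold pencilMap at h1
  rw [hσa] at h1
  set z := secondPoint (frontier K) Q y with hz
  have hzf : z ∈ frontier K := (sp_spec hy).1
  have hPz : secondPoint (frontier K) P z ∈ frontier K := (sp_spec hzf).1
  have h2 : secondPoint (frontier K) P z = a := by
    rw [← sp_invol hcl hKs hQf hPz, h1, hQa]
  have h3 : z = y := by
    rw [← sp_invol hcl hKs hPf hzf, h2, hσa]
  have hTy : Tang (frontier K) Q y := tang_of_sp_self h3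
  rcases (hT y hy).1 hTy with h | h
  · exact absurd h hya
  · refine ⟨s⁻¹, ?_⟩
    rw [← h, hydef]
    have hs0 : s ≠ 0 := by linarith
    rw [add_sub_cancel_left, smul_smul, inv_mul_cancel₀ hs0, one_smul]
    abel

/-- points of the line through two points of the curve, outside the segment, are not in `K` -/
lemma outside_of_line (hKc : IsClosed K) (hKs : StrictConvex ℝ K) {a b : E2} (ha : a ∈ frontier K)
    (hb : b ∈ frontier K) (hab : a ≠ b) {r : ℝ} (hr : r < 0 ∨ 1 < r) : a + r • (b - a) ∉ K := by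
  intro hmem
  have haK := hKc.frontier_subset ha
  have hbK := hKc.frontier_subset hb
  rcases hr with h | h
  · have hd : (1 - r) ≠ 0 := by linarith
    have hne : a + r • (b - a) ≠ b := by
      intro he
      have : (r - 1) • (b - a) = 0 := by
        have h1 : a + r • (b - a) - b = 0 := by rw [he, sub_self]
        rw [← h1]; module
      rcases smul_eq_zero.1 this with h2 | h2
      · linarith
      · exact hab (sub_eq_zero.1 h2).symm
    have := hKs hmem hbK hne (a := 1 / (1 - r)) (b := -r / (1 - r)) (by apply div_pos <;> linarith)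
      (by apply div_pos <;> linarith) (by field_simp; ring)
    apply ha.2
    convert! this using 1
    have e : a = ((1 - r)⁻¹ * (1 - r)) • a := by rw [inv_mul_cancel₀ hd, one_smul]
    rw [div_eq_mul_inv, div_eq_mul_inv]
    nth_rw 1 [e]
    module
  · have hr0 : r ≠ 0 := by linarith
    have hne : a ≠ a + r • (b - a) := by
      intro he
      have : r • (b - a) = 0 := by
        have : a + 0 = a + r • (b - a) := by rw [add_zero]; exact he
        exact (add_left_cancel this).symm
      rcases smul_eq_zero.1 this with h2 | h2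
      · exact hr0 h2
      · exact hab (sub_eq_zero.1 h2).symm
    have hlt : 1 / r < 1 := by rw [div_lt_one (by linarith)]; exact h
    have := hKs haK hmem hne (a := 1 - 1 / r) (b := 1 / r) (by linarith) (by positivity) (by ring)
    apply hb.2
    convert! this using 1
    rw [smul_add, smul_smul, one_div, inv_mul_cancel₀ hr0]; module

variable {Q₀ a b : E2}

/-- first coordinate -/
noncomputable def cX (Q₀ a b p : E2) : ℝ := cross (p - Q₀) (b - Q₀) / cross (a - Q₀) (b - Q₀)
/-- second coordinate -/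
noncomputable def cY (Q₀ a b p : E2) : ℝ := cross (a - Q₀) (p - Q₀) / cross (a - Q₀) (b - Q₀)
/-- third coordinate -/
noncomputable def cZ (Q₀ a b p : E2) : ℝ := 1 - cX Q₀ a b p - cY Q₀ a b p

lemma coord_repr (h : cross (a - Q₀) (b - Q₀) ≠ 0) (p : E2) :
    p = Q₀ + cX Q₀ a b p • (a - Q₀) + cY Q₀ a b p • (b - Q₀) := by
  have := exists_cross_repr (a - Q₀) (b - Q₀) (p - Q₀) h
  unfold cX cY
  rw [add_assoc, ← this]; abel

lemma coord_ext (h : cross (a - Q₀) (b - Q₀) ≠ 0) {p p' : E2} (hX : cX Q₀ a b p = cX Q₀ a b p')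
    (hY : cY Q₀ a b p = cY Q₀ a b p') : p = p' := by
  rw [coord_repr h p, coord_repr h p', hX, hY]

lemma cX_mk (h : cross (a - Q₀) (b - Q₀) ≠ 0) (u v : ℝ) :
    cX Q₀ a b (Q₀ + u • (a - Q₀) + v • (b - Q₀)) = u := by
  unfold cX
  have e : Q₀ + u • (a - Q₀) + v • (b - Q₀) - Q₀ = u • (a - Q₀) + v • (b - Q₀) := by abel
  rw [e, cross_add_left, cross_smul_left, cross_smul_left, cross_self]
  field_simp; ring

lemma cY_mk (h : cross (a - Q₀) (b - Q₀) ≠ 0) (u v : ℝ) :
    cY Q₀ a b (Q₀ + u • (a - Q₀) + v • (b - Q₀)) = v := by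
  unfold cY
  have e : Q₀ + u • (a - Q₀) + v • (b - Q₀) - Q₀ = u • (a - Q₀) + v • (b - Q₀) := by abel
  rw [e, cross_add_right, cross_smul_right, cross_smul_right, cross_self]
  field_simp; ring

lemma cX_comb (p p' : E2) (u v : ℝ) (huv : u + v = 1) :
    cX Q₀ a b (u • p + v • p') = u * cX Q₀ a b p + v * cX Q₀ a b p' := by
  unfold cX
  have e : u • p + v • p' - Q₀ = u • (p - Q₀) + v • (p' - Q₀) := by
    have : Q₀ = (u + v) • Q₀ := by rw [huv, one_smul]
    nth_rw 1 [this]
    module
  rw [e, cross_add_left, cross_smul_left, cross_smul_left]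
  ring

lemma cY_comb (p p' : E2) (u v : ℝ) (huv : u + v = 1) :
    cY Q₀ a b (u • p + v • p') = u * cY Q₀ a b p + v * cY Q₀ a b p' := by
  unfold cY
  have e : u • p + v • p' - Q₀ = u • (p - Q₀) + v • (p' - Q₀) := by
    have : Q₀ = (u + v) • Q₀ := by rw [huv, one_smul]
    nth_rw 1 [this]
    module
  rw [e, cross_add_right, cross_smul_right, cross_smul_right]
  ring

lemma cX_a (h : cross (a - Q₀) (b - Q₀) ≠ 0) : cX Q₀ a b a = 1 := by unfold cX; exact div_self h
lemma cX_b : cX Q₀ a b b = 0 := by unfold cX; rw [cross_self, zero_div]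
lemma cY_a : cY Q₀ a b a = 0 := by unfold cY; rw [cross_self, zero_div]
lemma cY_b (h : cross (a - Q₀) (b - Q₀) ≠ 0) : cY Q₀ a b b = 1 := by unfold cY; exact div_self h
lemma cX_Q : cX Q₀ a b Q₀ = 0 := by unfold cX; simp [cross]
lemma cY_Q : cY Q₀ a b Q₀ = 0 := by unfold cY; simp [cross]

end Pool.Agent.H57.Oval
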