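import Mathlib
import Pool.Agent.H57.Oval.Contact

open Set Filter Topology
open scoped ContDiff LinearAlgebra.Projectivization

namespace Pool.Agent.H57.Oval

variable {K : Set E2} {c : ℝ → E2} {Q₀ a b : E2}

lemma cross_ne_of_tang {γ : Set E2} (hb : b ∈ γ) (hab : a ≠ b) (haQ : a ≠ Q₀) (hTa : Tang γ Q₀ a) :
    cross (a - Q₀) (b - Q₀) ≠ 0 := by
  intro h
  obtain ⟨r, hr⟩ := exists_smul_of_cross_eq_zero (sub_ne_zero.2 haQ) h
  exact hab (hTa b hb r (by rw [← hr]; abel)).symm

lemma cX_pos (hKc : IsCompact K) (hKs : StrictConvex ℝ K) (hcr : cross (a - Q₀) (b - Q₀) ≠ 0)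
    (ha : a ∈ frontier K) (hb : b ∈ frontier K) (hTb : Tang (frontier K) Q₀ b) {x : E2}
    (hx : x ∈ frontier K) (hxb : x ≠ b) : 0 < cX Q₀ a b x := by
  by_contra hcon
  push Not at hcon
  have hcl := hKc.isClosed
  have haK := hcl.frontier_subset ha
  have hxK := hcl.frontier_subset hx
  have key : ∀ z : E2, cX Q₀ a b z = 0 → ∃ r : ℝ, z = Q₀ + r • (b - Q₀) := by
    intro z hz
    refine ⟨cY Q₀ a b z, ?_⟩
    have := coord_repr hcr z
    rwa [hz, zero_smul, add_zero] at this
  rcases hcon.lt_or_eq with hlt | heq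
  · have h1 : 0 < 1 - cX Q₀ a b x := by linarith
    have hxa : a ≠ x := by
      rintro rfl; rw [cX_a hcr] at hlt; linarith
    obtain ⟨X, hX⟩ : ∃ X, X = cX Q₀ a b x := ⟨_, rfl⟩
    rw [← hX] at h1 hlt
    have hz : (-X / (1 - X)) • a + (1 / (1 - X)) • x ∈ interior K :=
      hKs haK hxK hxa (by apply div_pos <;> linarith) (by positivity) (by field_simp; ring)
    set z := (-X / (1 - X)) • a + (1 / (1 - X)) • x with hzdef
    have hXz : cX Q₀ a b z = 0 := by
      rw [hzdef, cX_comb _ _ _ _ (by field_simp; ring), cX_a hcr, ← hX]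
      field_simp; ring
    obtain ⟨r, hr⟩ := key z hXz
    have hbz : b ≠ z := by rintro rfl; exact hb.2 hz
    obtain ⟨s, hs, hy⟩ := exists_beyond hKc hz hbz
    have h2 := hTb _ hy (1 + s * (r - 1)) (by rw [hr]; module)
    have h3 : s • (z - b) = 0 := by
      have : b + s • (z - b) = b + 0 := by rw [h2, add_zero]
      exact add_left_cancel this
    rcases smul_eq_zero.1 h3 with h | h
    · linarith
    · exact hbz (sub_eq_zero.1 h).symm
  · obtain ⟨r, hr⟩ := key x heq
    exact hxb (hTb x hx r hr)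

lemma cX_swap : cX Q₀ b a = cY Q₀ a b := by
  funext p
  unfold cX cY
  rw [cross_comm (p - Q₀), cross_comm (b - Q₀), neg_div_neg_eq]

lemma cY_pos (hKc : IsCompact K) (hKs : StrictConvex ℝ K) (hcr : cross (a - Q₀) (b - Q₀) ≠ 0)
    (ha : a ∈ frontier K) (hb : b ∈ frontier K) (hTa : Tang (frontier K) Q₀ a) {x : E2}
    (hx : x ∈ frontier K) (hxa : x ≠ a) : 0 < cY Q₀ a b x := by
  rw [← cX_swap]
  refine cX_pos hKc hKs ?_ hb ha hTa hx hxa
  rw [cross_comm]; exact neg_ne_zero.2 hcr

/-- Invariance under the harmonic homologies with centre on the line `ab`. -/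
theorem homology_line (hoc : IsOval c) (hKc : IsCompact K) (hKs : StrictConvex ℝ K)
    (hKi : (interior K).Nonempty) (hKf : frontier K = range c) (hyp : AllConj c)
    (hcr : cross (a - Q₀) (b - Q₀) ≠ 0)
    (ha : a ∈ frontier K) (hb : b ∈ frontier K) (hab : a ≠ b) (hTa : Tang (frontier K) Q₀ a)
    (hTb : Tang (frontier K) Q₀ b) {t : ℝ} (ht : 0 < t) (ht1 : t ≠ 1) {x : E2} (hx : x ∈ frontier K) :
    ∃ x' ∈ frontier K, ∃ D : ℝ, 0 < D ∧ D * cX Q₀ a b x' = t * t * cY Q₀ a b x ∧
      D * cY Q₀ a b x' = cX Q₀ a b x ∧ D * cZ Q₀ a b x' = t * cZ Q₀ a b x := by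
  have hcl := hKc.isClosed
  have h1t : 1 - t ≠ 0 := sub_ne_zero.2 (Ne.symm ht1)
  set X := cX Q₀ a b with hX
  set Y := cY Q₀ a b with hY
  have hXnn : ∀ x ∈ frontier K, 0 ≤ X x := by
    intro x hx
    by_cases h : x = b
    · rw [h, hX, cX_b]
    · exact (cX_pos hKc hKs hcr ha hb hTb hx h).le
  have hYnn : ∀ x ∈ frontier K, 0 ≤ Y x := by
    intro x hx
    by_cases h : x = a
    · rw [h, hY, cY_a]
    · exact (cY_pos hKc hKs hcr ha hb hTa hx h).le
  -- the centre
  set R : E2 := a + (1 / (1 - t)) • (b - a) with hR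
  have hRK : R ∉ K := by
    apply outside_of_line hcl hKs ha hb hab
    rcases lt_or_gt_of_ne ht1 with h | h
    · right; rw [lt_div_iff₀ (by linarith)]; linarith
    · left; exact div_neg_of_pos_of_neg one_pos (by linarith)
  have hRf : R ∉ frontier K := fun h => hRK (hcl.frontier_subset h)
  have hbR : b - R = t • (a - R) := by
    have e1 : b - R = (1 - 1 / (1 - t)) • (b - a) := by rw [hR]; module
    have e2 : a - R = (- (1 / (1 - t))) • (b - a) := by rw [hR]; module
    rw [e1, e2, smul_smul]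
    congr 1
    field_simp; ring
  obtain ⟨p₁, p₂, hp₁, hp₂, hp12, hT⟩ := exists_tangents hKc hKs hKi hRK
  -- the contact line through p₁ p₂
  set w : E2 := p₂ - p₁ with hw
  have hw0 : w ≠ 0 := sub_ne_zero.2 (Ne.symm hp12)
  set ψ : E2 → ℝ := fun p => cross (p - p₁) w with hψ
  have hψc : ∀ (p q : E2) (u v : ℝ), u + v = 1 → ψ (u • p + v • q) = u * ψ p + v * ψ q := by
    intro p q u v huv
    simp only [hψ]
    have e : u • p + v • q - p₁ = u • (p - p₁) + v • (q - p₁) := by
      have : p₁ = (u + v) • p₁ := by rw [huv, one_smul]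
      nth_rw 1 [this]
      module
    rw [e, cross_add_left, cross_smul_left, cross_smul_left]
  have hψline : ∀ s : ℝ, ψ (p₁ + s • (p₂ - p₁)) = 0 := by
    intro s
    simp only [hψ, ← hw]
    rw [add_sub_cancel_left, cross_smul_left, cross_self, mul_zero]
  have hψzero : ∀ p ∈ frontier K, ψ p = 0 → p = p₁ ∨ p = p₂ := by
    intro p hp h0
    have h1 : cross w (p - p₁) = 0 := by rw [cross_comm]; simp only [hψ] at h0; rw [h0, neg_zero]
    obtain ⟨r, hr⟩ := exists_smul_of_cross_eq_zero hw0 h1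
    exact no_three hcl hKs hp₁ hp₂ hp hp12 (r := r) (by rw [← hw, ← hr]; abel)
  have hb_ne : b ≠ a := Ne.symm hab
  -- value relations at a, b
  have hcon := contact hoc hKc hKs hKi hKf hyp hRK hp₁ hT ha hb hb_ne hbR
  obtain ⟨-, s₀, hs₀⟩ := hcon
  have h1t' : 1 + t ≠ 0 := by positivity
  have hψab : t * ψ a + ψ b = 0 := by
    have h1 : ψ ((t / (1 + t)) • a + (1 / (1 + t)) • b) = 0 := by rw [hs₀]; exact hψline _
    rw [hψc _ _ _ _ (by field_simp; ring)] at h1
    field_simp at h1
    linarith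
  have hψa : ψ a ≠ 0 := by
    intro h0
    have h0b : ψ b = 0 := by rw [h0, mul_zero, zero_add] at hψab; exact hψab
    have h1 := hψzero a ha h0
    have h3 : Tang (frontier K) R a := (hT a ha).2 h1
    exact hb_ne (h3 b hb t (by rw [← hbR]; abel))
  -- affine expression of ψ
  have hψaff : ∀ p, ψ p = X p * ψ a + Y p * ψ b + (1 - X p - Y p) * ψ Q₀ := by
    intro p
    have h1 : cross (p - p₁) w = cross (Q₀ + X p • (a - Q₀) + Y p • (b - Q₀) - p₁) w := by
      rw [← coord_repr hcr p]
    simp only [hψ]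
    rw [h1]
    simp only [cross]
    simp
    ring
  set k : ℝ := ψ Q₀ / ψ a with hk
  set φ : E2 → ℝ := fun p => X p - t * Y p + k * (1 - X p - Y p) with hφ
  have hφψ : ∀ p, ψ p = φ p * ψ a := by
    intro p
    rw [hψaff p]
    simp only [hφ, hk]
    have : ψ b = - t * ψ a := by linarith
    rw [this]
    field_simp
    ring
  have hRX : X R = -t / (1 - t) := by
    have e : R = (1 - 1 / (1 - t)) • a + (1 / (1 - t)) • b := by rw [hR]; module
    rw [e, hX, cX_comb _ _ _ _ (by ring), cX_a hcr, cX_b]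
    field_simp; ring
  have hRY : Y R = 1 / (1 - t) := by
    have e : R = (1 - 1 / (1 - t)) • a + (1 / (1 - t)) • b := by rw [hR]; module
    rw [e, hY, cY_comb _ _ _ _ (by ring), cY_b hcr, cY_a]
    ring
  have hφR : φ R = -2 * t / (1 - t) := by
    simp only [hφ]
    rw [hRX, hRY]
    field_simp; ring
  -- description of the second intersection point
  have hmain : ∀ x ∈ frontier K, ∃ x' ∈ frontier K, ∃ D : ℝ, 0 < D ∧
      D * X x' = t * (X x - φ x) ∧ D * Y x' = φ x + t * Y x ∧ D = t + (1 - t) * φ x := by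
    intro x hx
    by_cases hxT : Tang (frontier K) R x
    · have h1 := (hT x hx).1 hxT
      have h0 : ψ x = 0 := by
        rcases h1 with h | h
        · rw [h]; have := hψline 0; rwa [zero_smul, add_zero] at this
        · rw [h]; have := hψline 1; rwa [one_smul, add_sub_cancel] at this
      have h0' : φ x = 0 := by
        rw [hφψ] at h0
        rcases mul_eq_zero.1 h0 with h | h
        · exact h
        · exact absurd h hψa
      exact ⟨x, hx, t, ht, by rw [h0']; ring, by rw [h0']; ring, by rw [h0']; ring⟩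
    · unfold Tang at hxT
      push Not at hxT
      obtain ⟨x', hx', ρ, hρ, hne⟩ := hxT
      have hρ' : x' - R = ρ • (x - R) := by rw [hρ]; abel
      obtain ⟨hρ0, s, hs⟩ := contact hoc hKc hKs hKi hKf hyp hRK hp₁ hT hx hx' hne hρ'
      have h1ρ : 1 + ρ ≠ 0 := by positivity
      have h1 : ρ * ψ x + ψ x' = 0 := by
        have h1 : ψ ((ρ / (1 + ρ)) • x + (1 / (1 + ρ)) • x') = 0 := by rw [hs]; exact hψline _
        rw [hψc _ _ _ _ (by field_simp; ring)] at h1
        field_simp at h1
        linarith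
      have hx'e : x' = (1 - ρ) • R + ρ • x := by rw [hρ]; module
      have h2 : ψ x' = (1 - ρ) * ψ R + ρ * ψ x := by rw [hx'e, hψc _ _ _ _ (by ring)]
      have h3 : 2 * ρ * φ x + (1 - ρ) * φ R = 0 := by
        have : (2 * ρ * φ x + (1 - ρ) * φ R) * ψ a = 0 := by
          have e1 := hφψ x
          have e2 := hφψ R
          calc (2 * ρ * φ x + (1 - ρ) * φ R) * ψ a = 2 * ρ * (φ x * ψ a) + (1 - ρ) * (φ R * ψ a) := by ring
            _ = ρ * ψ x + ((1 - ρ) * ψ R + ρ * ψ x) := by rw [← e1, ← e2]; ring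
            _ = 0 := by rw [← h2]; exact h1
        rcases mul_eq_zero.1 this with h | h
        · exact h
        · exact absurd h hψa
      rw [hφR] at h3
      have hD : ρ * (t + (1 - t) * φ x) = t := by
        field_simp at h3
        linarith
      have hDpos : 0 < t + (1 - t) * φ x := by
        by_contra hcon
        push Not at hcon
        nlinarith
      have hX' : X x' = (1 - ρ) * X R + ρ * X x := by rw [hx'e, hX, cX_comb _ _ _ _ (by ring)]
      have hY' : Y x' = (1 - ρ) * Y R + ρ * Y x := by rw [hx'e, hY, cY_comb _ _ _ _ (by ring)]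
      refine ⟨x', hx', t + (1 - t) * φ x, hDpos, ?_, ?_, rfl⟩
      · rw [hX', hRX]
        have : (t + (1 - t) * φ x) * ((1 - ρ) * (-t / (1 - t)) + ρ * X x) =
            ((t + (1 - t) * φ x) - ρ * (t + (1 - t) * φ x)) * (-t / (1 - t)) + (ρ * (t + (1 - t) * φ x)) * X x := by ring
        rw [this, hD]
        field_simp; ring
      · rw [hY', hRY]
        have : (t + (1 - t) * φ x) * ((1 - ρ) * (1 / (1 - t)) + ρ * Y x) =
            ((t + (1 - t) * φ x) - ρ * (t + (1 - t) * φ x)) * (1 / (1 - t)) + (ρ * (t + (1 - t) * φ x)) * Y x := by ring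
        rw [this, hD]
        field_simp; ring
  -- positivity forces k = 0
  have hpos : ∀ x ∈ frontier K, 0 ≤ t * Y x - k * (1 - X x - Y x) := by
    intro x hx
    obtain ⟨x', hx', D, hD, h1, -, -⟩ := hmain x hx
    have h2 := hXnn x' hx'
    have h3 : 0 ≤ t * (X x - φ x) := by rw [← h1]; positivity
    have h4 : X x - φ x = t * Y x - k * (1 - X x - Y x) := by simp only [hφ]; ring
    rw [h4] at h3
    exact nonneg_of_mul_nonneg_right h3 ht
  obtain ⟨ta, hta⟩ : a ∈ range c := by rw [← hKf]; exact ha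
  have hfr : ∀ s, c s ∈ frontier K := fun s => by rw [hKf]; exact mem_range_self s
  have hcd : HasDerivAt c (deriv c ta) ta := (hoc.smooth.differentiable (by simp) ta).hasDerivAt
  have hXd : HasDerivAt (fun s => X (c s)) (cross (deriv c ta) (b - Q₀) / cross (a - Q₀) (b - Q₀)) ta := by
    have h1 : HasDerivAt (fun s => - cross (b - Q₀) (c s - Q₀)) (- cross (b - Q₀) (deriv c ta)) ta :=
      ((crossL (b - Q₀)).hasFDerivAt.comp_hasDerivAt ta (hcd.sub_const Q₀)).neg
    have h2 := h1.div_const (cross (a - Q₀) (b - Q₀))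
    simp only [hX]
    unfold cX
    convert! h2 using 1
    · funext s; rw [cross_comm (c s - Q₀)]
    · rw [cross_comm (deriv c ta)]
  have hYd : HasDerivAt (fun s => Y (c s)) (cross (a - Q₀) (deriv c ta) / cross (a - Q₀) (b - Q₀)) ta := by
    have h1 : HasDerivAt (fun s => cross (a - Q₀) (c s - Q₀)) (cross (a - Q₀) (deriv c ta)) ta :=
      (crossL (a - Q₀)).hasFDerivAt.comp_hasDerivAt ta (hcd.sub_const Q₀)
    exact h1.div_const (cross (a - Q₀) (b - Q₀))
  set X' := cross (deriv c ta) (b - Q₀) / cross (a - Q₀) (b - Q₀) with hX'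
  set Y' := cross (a - Q₀) (deriv c ta) / cross (a - Q₀) (b - Q₀) with hY'
  have hY'0 : Y' = 0 := by
    have hmin : IsLocalMin (fun s => Y (c s)) ta := by
      refine Eventually.of_forall fun s => ?_
      simp only [hta]
      rw [hY, cY_a]
      exact hYnn _ (hfr s)
    exact hmin.hasDerivAt_eq_zero hYd
  have hX'0 : X' ≠ 0 := by
    intro h0
    apply hoc.regular ta
    have := exists_cross_repr (a - Q₀) (b - Q₀) (deriv c ta) hcr
    rw [← hX', ← hY', h0, hY'0] at this
    rw [this]; simp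
  have hk0 : k = 0 := by
    have hd : HasDerivAt (fun s => t * Y (c s) - k * (1 - X (c s) - Y (c s)))
        (t * Y' - k * (0 - X' - Y')) ta :=
      (hYd.const_mul t).sub (((((hasDerivAt_const ta (1 : ℝ)).sub hXd).sub hYd)).const_mul k)
    have hmin : IsLocalMin (fun s => t * Y (c s) - k * (1 - X (c s) - Y (c s))) ta := by
      refine Eventually.of_forall fun s => ?_
      simp only [hta]
      have e : t * Y a - k * (1 - X a - Y a) = 0 := by
        rw [hX, hY, cX_a hcr, cY_a]; ring
      rw [e]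
      exact hpos _ (hfr s)
    have h0 := hmin.hasDerivAt_eq_zero hd
    rw [hY'0] at h0
    have : k * X' = 0 := by linarith
    rcases mul_eq_zero.1 this with h | h
    · exact h
    · exact absurd h hX'0
  obtain ⟨x', hx', D, hD, h1, h2, h3⟩ := hmain x hx
  have hφx : φ x = X x - t * Y x := by simp only [hφ]; rw [hk0]; ring
  rw [hφx] at h1 h2 h3
  refine ⟨x', hx', D, hD, by rw [h1]; ring, by rw [h2]; ring, ?_⟩
  have e1 : cZ Q₀ a b x' = 1 - X x' - Y x' := rfl
  have e2 : cZ Q₀ a b x = 1 - X x - Y x := rfl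
  rw [e1, e2]
  linear_combination h3 - h1 - h2

end Pool.Agent.H57.Oval
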