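import Mathlib
import Pool.Agent.H57.Oval.Homology

open Set Filter Topology
open scoped ContDiff LinearAlgebra.Projectivization

namespace Pool.Agent.H57.Oval

variable {K : Set E2} {c : ℝ → E2} {Q₀ a b : E2}

/-- Reflection through the axis `ab`. -/
lemma homology_apex (hoc : IsOval c) (hKc : IsCompact K) (hKs : StrictConvex ℝ K)
    (hKi : (interior K).Nonempty) (hKf : frontier K = range c) (hyp : AllConj c) (hQ : Q₀ ∉ K)
    (hcr : cross (a - Q₀) (b - Q₀) ≠ 0)
    (ha : a ∈ frontier K)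
    (hT : ∀ x ∈ frontier K, Tang (frontier K) Q₀ x ↔ (x = a ∨ x = b))
    {x : E2} (hx : x ∈ frontier K) (hxa : x ≠ a) (hxb : x ≠ b) :
    ∃ x' ∈ frontier K, x' ≠ x ∧ ∃ ρ : ℝ, 0 < ρ ∧ x' = Q₀ + ρ • (x - Q₀) ∧
      cX Q₀ a b x' = ρ * cX Q₀ a b x ∧
      cY Q₀ a b x' = ρ * cY Q₀ a b x ∧ cZ Q₀ a b x' = - ρ * cZ Q₀ a b x := by
  have hnT : ¬ Tang (frontier K) Q₀ x := fun h => by
    rcases (hT x hx).1 h with h | h
    · exact hxa h
    · exact hxb h
  unfold Tang at hnT
  push Not at hnT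
  obtain ⟨x', hx', ρ, hρ, hne⟩ := hnT
  have hρ' : x' - Q₀ = ρ • (x - Q₀) := by rw [hρ]; abel
  obtain ⟨hρ0, s, hs⟩ := contact hoc hKc hKs hKi hKf hyp hQ ha hT hx hx' hne hρ'
  have h1ρ : 1 + ρ ≠ 0 := by positivity
  have hx'e : x' = (1 - ρ) • Q₀ + ρ • x := by rw [hρ]; module
  have hX' : cX Q₀ a b x' = ρ * cX Q₀ a b x := by
    rw [hx'e, cX_comb _ _ _ _ (by ring), cX_Q]; ring
  have hY' : cY Q₀ a b x' = ρ * cY Q₀ a b x := by
    rw [hx'e, cY_comb _ _ _ _ (by ring), cY_Q]; ring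
  refine ⟨x', hx', hne, ρ, hρ0, hρ, hX', hY', ?_⟩
  -- Z vanishes on the line ab
  have hs' : a + s • (b - a) = (1 - s) • a + s • b := by module
  have hXP : cX Q₀ a b ((ρ / (1 + ρ)) • x + (1 / (1 + ρ)) • x') = 1 - s := by
    rw [hs, hs', cX_comb _ _ _ _ (by ring), cX_a hcr, cX_b]; ring
  have hYP : cY Q₀ a b ((ρ / (1 + ρ)) • x + (1 / (1 + ρ)) • x') = s := by
    rw [hs, hs', cY_comb _ _ _ _ (by ring), cY_b hcr, cY_a]; ring
  rw [cX_comb _ _ _ _ (by field_simp; ring), hX'] at hXP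
  rw [cY_comb _ _ _ _ (by field_simp; ring), hY'] at hYP
  field_simp at hXP hYP
  unfold cZ
  rw [hX', hY']
  linear_combination -hXP - hYP

/-- Transitive motion along the curve. -/
lemma move (hoc : IsOval c) (hKc : IsCompact K) (hKs : StrictConvex ℝ K)
    (hKi : (interior K).Nonempty) (hKf : frontier K = range c) (hyp : AllConj c)
    (hcr : cross (a - Q₀) (b - Q₀) ≠ 0)
    (ha : a ∈ frontier K) (hb : b ∈ frontier K) (hab : a ≠ b) (hTa : Tang (frontier K) Q₀ a)
    (hTb : Tang (frontier K) Q₀ b) {l : ℝ} (hl : 0 < l) {x : E2} (hx : x ∈ frontier K) :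
    ∃ x' ∈ frontier K, ∃ D : ℝ, 0 < D ∧ D * cX Q₀ a b x' = l * cX Q₀ a b x ∧
      D * cY Q₀ a b x' = l⁻¹ * cY Q₀ a b x ∧ D * cZ Q₀ a b x' = cZ Q₀ a b x := by
  obtain ⟨t, ht0, ht1, ht2⟩ : ∃ t : ℝ, 0 < t ∧ t ≠ 1 ∧ t * l ≠ 1 := by
    by_cases h : 2 * l = 1
    · exact ⟨3, by norm_num, by norm_num, by intro h3; linarith⟩
    · exact ⟨2, by norm_num, by norm_num, h⟩
  obtain ⟨x₁, hx₁, D₁, hD₁, h1, h2, h3⟩ := homology_line hoc hKc hKs hKi hKf hyp hcr ha hb hab hTa hTb ht0 ht1 hx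
  obtain ⟨x₂, hx₂, D₂, hD₂, h4, h5, h6⟩ := homology_line hoc hKc hKs hKi hKf hyp hcr ha hb hab hTa hTb
    (mul_pos ht0 hl) ht2 hx₁
  refine ⟨x₂, hx₂, D₁ * D₂ / (t * (t * l)), by positivity, ?_, ?_, ?_⟩
  · have : D₁ * D₂ / (t * (t * l)) * cX Q₀ a b x₂ = (D₁ * (D₂ * cX Q₀ a b x₂)) / (t * (t * l)) := by ring
    rw [this, h4]
    have : D₁ * (t * l * (t * l) * cY Q₀ a b x₁) = (t * l * (t * l)) * (D₁ * cY Q₀ a b x₁) := by ring
    rw [this, h2]
    field_simp
  · have : D₁ * D₂ / (t * (t * l)) * cY Q₀ a b x₂ = (D₁ * (D₂ * cY Q₀ a b x₂)) / (t * (t * l)) := by ring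
    rw [this, h5, h1]
    field_simp
  · have : D₁ * D₂ / (t * (t * l)) * cZ Q₀ a b x₂ = (D₁ * (D₂ * cZ Q₀ a b x₂)) / (t * (t * l)) := by ring
    rw [this, h6]
    have : D₁ * (t * l * cZ Q₀ a b x₁) = (t * l) * (D₁ * cZ Q₀ a b x₁) := by ring
    rw [this, h3]
    field_simp

lemma sum_coord (p : E2) : cX Q₀ a b p + cY Q₀ a b p + cZ Q₀ a b p = 1 := by unfold cZ; ring

/-- The curve is a conic in these coordinates. -/
theorem conic (hoc : IsOval c) (hKc : IsCompact K) (hKs : StrictConvex ℝ K)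
    (hKi : (interior K).Nonempty) (hKf : frontier K = range c) (hyp : AllConj c) (hQ : Q₀ ∉ K)
    (ha : a ∈ frontier K) (hb : b ∈ frontier K) (hab : a ≠ b)
    (hT : ∀ x ∈ frontier K, Tang (frontier K) Q₀ x ↔ (x = a ∨ x = b)) :
    cross (a - Q₀) (b - Q₀) ≠ 0 ∧ ∃ κ : ℝ, 1 < 4 * κ ∧ ∀ p : E2, p ∈ frontier K ↔
      cX Q₀ a b p * cY Q₀ a b p = κ * (cZ Q₀ a b p) ^ 2 := by
  have hcl := hKc.isClosed
  have hTa : Tang (frontier K) Q₀ a := (hT a ha).2 (Or.inl rfl)
  have hTb : Tang (frontier K) Q₀ b := (hT b hb).2 (Or.inr rfl)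
  have haQ : a ≠ Q₀ := by rintro rfl; exact hQ (hcl.frontier_subset ha)
  have hcr : cross (a - Q₀) (b - Q₀) ≠ 0 := cross_ne_of_tang hb hab haQ hTa
  refine ⟨hcr, ?_⟩
  have hXp : ∀ x ∈ frontier K, x ≠ b → 0 < cX Q₀ a b x := fun x hx h => cX_pos hKc hKs hcr ha hb hTb hx h
  have hYp : ∀ x ∈ frontier K, x ≠ a → 0 < cY Q₀ a b x := fun x hx h => cY_pos hKc hKs hcr ha hb hTa hx h
  -- points on the line ab
  have hZ0 : ∀ x ∈ frontier K, cZ Q₀ a b x = 0 → x = a ∨ x = b := by
    intro x hx h0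
    have h1 := coord_repr hcr x
    have h2 : cX Q₀ a b x = 1 - cY Q₀ a b x := by have := sum_coord (Q₀ := Q₀) (a := a) (b := b) x; linarith
    refine no_three hcl hKs ha hb hx hab (r := cY Q₀ a b x) ?_
    rw [h2] at h1
    nth_rw 1 [h1]
    module
  -- a third point
  obtain ⟨y₀, hy₀, hy₀a, hy₀b⟩ : ∃ y ∈ frontier K, y ≠ a ∧ y ≠ b := by
    obtain ⟨z, hz⟩ := hKi
    -- choose an interior point off the line ab
    have hne : a ≠ z := by rintro rfl; exact ha.2 hz
    by_cases hline : cross (b - a) (z - a) = 0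
    · -- use instead a line through z in another direction: reflect through an interior point
      have hba : b - a ≠ 0 := sub_ne_zero.2 (Ne.symm hab)
      obtain ⟨n, hn⟩ : ∃ n : E2, cross (b - a) n ≠ 0 := by
        by_contra hcon
        push Not at hcon
        have h1 := hcon (EuclideanSpace.single 0 1)
        have h2 := hcon (EuclideanSpace.single 1 1)
        apply hba
        ext i
        simp [cross] at h1 h2
        fin_cases i
        · simp; linarith
        · simp; linarith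
      have hcont : Continuous fun s : ℝ => z + s • n := by fun_prop
      have h0 : ∀ᶠ s in 𝓝 (0 : ℝ), z + s • n ∈ interior K := by
        have : (fun s : ℝ => z + s • n) 0 ∈ interior K := by simpa using hz
        exact hcont.continuousAt.eventually_mem (isOpen_interior.mem_nhds this)
      obtain ⟨δ, hδ, hδK⟩ := Metric.eventually_nhds_iff.1 h0
      have hz' : z + (δ / 2) • n ∈ interior K := hδK (by simp [abs_of_pos hδ]; linarith)
      have hoff : cross (b - a) (z + (δ / 2) • n - a) ≠ 0 := by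
        have e : z + (δ / 2) • n - a = (z - a) + (δ / 2) • n := by abel
        rw [e, cross_add_right, hline, cross_smul_right, zero_add]
        positivity
      have hne' : a ≠ z + (δ / 2) • n := by intro h; rw [← h] at hz'; exact ha.2 hz'
      obtain ⟨s, hs, hy⟩ := exists_beyond hKc hz' hne'
      refine ⟨_, hy, ?_, ?_⟩
      · intro h
        have : s • (z + (δ / 2) • n - a) = 0 := by
          have : a + s • (z + (δ / 2) • n - a) = a + 0 := by rw [h, add_zero]
          exact add_left_cancel this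
        rcases smul_eq_zero.1 this with h | h
        · linarith
        · exact hne' (sub_eq_zero.1 h).symm
      · intro h
        apply hoff
        have : b - a = s • (z + (δ / 2) • n - a) := by rw [← h]; abel
        rw [this, cross_smul_left, cross_self, mul_zero]
    · obtain ⟨s, hs, hy⟩ := exists_beyond hKc hz hne
      refine ⟨_, hy, ?_, ?_⟩
      · intro h
        have : s • (z - a) = 0 := by
          have : a + s • (z - a) = a + 0 := by rw [h, add_zero]
          exact add_left_cancel this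
        rcases smul_eq_zero.1 this with h | h
        · linarith
        · exact hne (sub_eq_zero.1 h).symm
      · intro h
        apply hline
        have : b - a = s • (z - a) := by rw [← h]; abel
        rw [this, cross_smul_left, cross_self, mul_zero]
  have hZne : ∀ x ∈ frontier K, x ≠ a → x ≠ b → cZ Q₀ a b x ≠ 0 := by
    intro x hx hxa hxb h0
    rcases hZ0 x hx h0 with h | h
    · exact hxa h
    · exact hxb h
  set κ : ℝ := cX Q₀ a b y₀ * cY Q₀ a b y₀ / (cZ Q₀ a b y₀) ^ 2 with hκ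
  -- representatives with both signs of Z
  obtain ⟨y₁, hy₁, hy₁a, hy₁b, hy₁κ, hy₁Z⟩ : ∃ y ∈ frontier K, y ≠ a ∧ y ≠ b ∧
      cX Q₀ a b y * cY Q₀ a b y = κ * (cZ Q₀ a b y) ^ 2 ∧ 0 < cZ Q₀ a b y * (- cZ Q₀ a b y₀) := by
    obtain ⟨x', hx', hne, ρ, hρ, -, h1, h2, h3⟩ := homology_apex hoc hKc hKs hKi hKf hyp hQ hcr ha hT hy₀ hy₀a hy₀b
    have hz0 := hZne y₀ hy₀ hy₀a hy₀b
    refine ⟨x', hx', ?_, ?_, ?_, ?_⟩
    · rintro rfl
      have := hYp y₀ hy₀ hy₀a
      rw [cY_a] at h2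
      have : 0 < ρ * cY Q₀ x' b y₀ := by positivity
      linarith
    · rintro rfl
      have := hXp y₀ hy₀ hy₀b
      rw [cX_b] at h1
      have : 0 < ρ * cX Q₀ a x' y₀ := by positivity
      linarith
    · rw [h1, h2, h3, hκ]
      field_simp
    · rw [h3]
      have : 0 < cZ Q₀ a b y₀ * cZ Q₀ a b y₀ := mul_self_pos.2 hz0
      nlinarith
  have hy₀κ : cX Q₀ a b y₀ * cY Q₀ a b y₀ = κ * (cZ Q₀ a b y₀) ^ 2 := by
    have hz0 := hZne y₀ hy₀ hy₀a hy₀b
    rw [hκ]; field_simp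
  have hrep : ∀ z : ℝ, z ≠ 0 → ∃ y ∈ frontier K, y ≠ a ∧ y ≠ b ∧
      cX Q₀ a b y * cY Q₀ a b y = κ * (cZ Q₀ a b y) ^ 2 ∧ 0 < cZ Q₀ a b y * z := by
    intro z hz
    have hz0 := hZne y₀ hy₀ hy₀a hy₀b
    by_cases h : 0 < cZ Q₀ a b y₀ * z
    · exact ⟨y₀, hy₀, hy₀a, hy₀b, hy₀κ, h⟩
    · refine ⟨y₁, hy₁, hy₁a, hy₁b, hy₁κ, ?_⟩
      have h1 : cZ Q₀ a b y₀ * z < 0 := lt_of_le_of_ne (not_lt.1 h) (mul_ne_zero hz0 hz)
      have h2 : 0 < cZ Q₀ a b y₀ * cZ Q₀ a b y₀ := mul_self_pos.2 hz0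
      -- Z y₁ and z both have sign opposite to Z y₀
      rcases lt_or_gt_of_ne hz0 with hneg | hpos
      · have hz' : 0 < z := by
          by_contra hc; push Not at hc
          nlinarith
        have : 0 < cZ Q₀ a b y₁ := by
          by_contra hc; push Not at hc
          nlinarith
        positivity
      · have hz' : z < 0 := by
          by_contra hc; push Not at hc
          nlinarith
        have : cZ Q₀ a b y₁ < 0 := by
          by_contra hc; push Not at hc
          nlinarith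
        exact mul_pos_of_neg_of_neg this hz'
  -- bound on κ
  have hκ4 : 1 < 4 * κ := by
    obtain ⟨y, hy, hya, hyb, hyκ, hyZ⟩ := hrep (-1) (by norm_num)
    have hZneg : cZ Q₀ a b y < 0 := by linarith
    have hX := hXp y hy hyb
    have hY := hYp y hy hya
    set X := cX Q₀ a b y
    set Y := cY Q₀ a b y
    set Z := cZ Q₀ a b y
    obtain ⟨x', hx', D, hD, h1, h2, h3⟩ := move hoc hKc hKs hKi hKf hyp hcr ha hb hab hTa hTb
      (l := Real.sqrt (Y / X)) (Real.sqrt_pos.2 (by positivity)) hy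
    have hsum : D = Real.sqrt (Y / X) * X + (Real.sqrt (Y / X))⁻¹ * Y + Z := by
      have e : D = D * cX Q₀ a b x' + D * cY Q₀ a b x' + D * cZ Q₀ a b x' := by
        rw [← mul_add, ← mul_add, sum_coord, mul_one]
      rw [h1, h2, h3] at e
      exact e
    have hs1 : Real.sqrt (Y / X) * X = Real.sqrt (X * Y) := by
      have : X * Y = (Y / X) * X ^ 2 := by field_simp
      rw [this, Real.sqrt_mul (by positivity), Real.sqrt_sq hX.le]
    have hs2 : (Real.sqrt (Y / X))⁻¹ * Y = Real.sqrt (X * Y) := by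
      have : X * Y = (Y / X)⁻¹ * Y ^ 2 := by field_simp
      rw [this, Real.sqrt_mul (by positivity), Real.sqrt_sq hY.le, Real.sqrt_inv]
    rw [hs1, hs2] at hsum
    have h4 : -Z < 2 * Real.sqrt (X * Y) := by linarith
    have h5 : (-Z) ^ 2 < (2 * Real.sqrt (X * Y)) ^ 2 := by
      apply pow_lt_pow_left₀ h4 (by linarith) (by norm_num)
    rw [mul_pow, Real.sq_sqrt (by positivity), hyκ] at h5
    have h6 : 0 < Z ^ 2 := by have := hZneg.ne; positivity
    nlinarith
  refine ⟨κ, hκ4, fun p => ⟨fun hp => ?_, fun hp => ?_⟩⟩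
  · -- points of the curve satisfy the equation
    by_cases hpa : p = a
    · rw [hpa, cY_a]; unfold cZ; rw [cX_a hcr, cY_a]; ring
    by_cases hpb : p = b
    · rw [hpb, cX_b]; unfold cZ; rw [cX_b, cY_b hcr]; ring
    have hZ := hZne p hp hpa hpb
    have hX := hXp p hp hpb
    have hY := hYp p hp hpa
    obtain ⟨y, hy, hya, hyb, hyκ, hyZ⟩ := hrep (cZ Q₀ a b p) hZ
    have hXy := hXp y hy hyb
    have hYy := hYp y hy hya
    obtain ⟨x', hx', D, hD, h1, h2, h3⟩ := move hoc hKc hKs hKi hKf hyp hcr ha hb hab hTa hTb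
      (l := Real.sqrt ((cX Q₀ a b p / cY Q₀ a b p) / (cX Q₀ a b y / cY Q₀ a b y)))
      (Real.sqrt_pos.2 (by positivity)) hy
    set l := Real.sqrt ((cX Q₀ a b p / cY Q₀ a b p) / (cX Q₀ a b y / cY Q₀ a b y)) with hl
    have hl0 : 0 < l := Real.sqrt_pos.2 (by positivity)
    have hl2 : l * l = (cX Q₀ a b p / cY Q₀ a b p) / (cX Q₀ a b y / cY Q₀ a b y) :=
      Real.mul_self_sqrt (by positivity)
    have hYx' : 0 < cY Q₀ a b x' := by
      have : 0 < D * cY Q₀ a b x' := by rw [h2]; positivity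
      exact (pos_iff_pos_of_mul_pos this).1 hD
    have hXx' : 0 < cX Q₀ a b x' := by
      have : 0 < D * cX Q₀ a b x' := by rw [h1]; positivity
      exact (pos_iff_pos_of_mul_pos this).1 hD
    -- x' is on the line Q₀ p
    have hratio : cX Q₀ a b x' * cY Q₀ a b p = cY Q₀ a b x' * cX Q₀ a b p := by
      have e1 : D * D * (cX Q₀ a b x' * cY Q₀ a b p) = D * D * (cY Q₀ a b x' * cX Q₀ a b p) := by
        have e2 : D * D * (cX Q₀ a b x' * cY Q₀ a b p) = D * ((D * cX Q₀ a b x') * cY Q₀ a b p) := by ring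
        have e3 : D * D * (cY Q₀ a b x' * cX Q₀ a b p) = D * ((D * cY Q₀ a b x') * cX Q₀ a b p) := by ring
        rw [e2, e3, h1, h2]
        congr 1
        field_simp
        rw [pow_two, hl2]
        field_simp
      exact mul_left_cancel₀ (by positivity) e1
    set τ := cY Q₀ a b x' / cY Q₀ a b p with hτ
    have hτ0 : 0 < τ := by positivity
    have hτY : cY Q₀ a b x' = τ * cY Q₀ a b p := by rw [hτ]; field_simp
    have hτX : cX Q₀ a b x' = τ * cX Q₀ a b p := by
      rw [hτ]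
      field_simp
      linarith
    have hx'l : x' = Q₀ + τ • (p - Q₀) := by
      have e1 : p - Q₀ = cX Q₀ a b p • (a - Q₀) + cY Q₀ a b p • (b - Q₀) := by
        nth_rw 1 [coord_repr hcr p]; abel
      rw [e1]
      nth_rw 1 [coord_repr hcr x']
      rw [hτX, hτY]; module
    have hx'p : x' = p := by
      by_contra hne
      obtain ⟨q, hq, hqne, ρ, hρ, hql, hq1, hq2, hq3⟩ :=
        homology_apex hoc hKc hKs hKi hKf hyp hQ hcr ha hT hp hpa hpb
      have hQf : Q₀ ∉ frontier K := fun h => hQ (hcl.frontier_subset h)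
      have e1 := sp_eq hcl hKs hp hx' hne hx'l
      have e2 := sp_eq hcl hKs hp hq hqne hql
      have e3 : x' = q := by rw [← e1, e2]
      rw [e3] at h3
      rw [hq3] at h3
      have h4 : 0 < cZ Q₀ a b y * cZ Q₀ a b p := hyZ
      rw [← h3] at h4
      have h5 : 0 < cZ Q₀ a b p * cZ Q₀ a b p := mul_self_pos.2 hZ
      have h6 : 0 < D * ρ := by positivity
      nlinarith
    rw [hx'p] at h1 h2 h3
    have h4 : D * D * (cX Q₀ a b p * cY Q₀ a b p) = D * D * (κ * cZ Q₀ a b p ^ 2) := by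
      calc D * D * (cX Q₀ a b p * cY Q₀ a b p) = (D * cX Q₀ a b p) * (D * cY Q₀ a b p) := by ring
        _ = (l * cX Q₀ a b y) * (l⁻¹ * cY Q₀ a b y) := by rw [h1, h2]
        _ = cX Q₀ a b y * cY Q₀ a b y := by field_simp
        _ = κ * (D * cZ Q₀ a b p) ^ 2 := by rw [hyκ, h3]
        _ = _ := by ring
    exact mul_left_cancel₀ (by positivity) h4
  · -- conversely
    have hκ0 : 0 < κ := by linarith
    by_cases hZ : cZ Q₀ a b p = 0
    · rw [hZ] at hp
      have h0 : cX Q₀ a b p * cY Q₀ a b p = 0 := by rw [hp]; ring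
      have hsum := sum_coord (Q₀ := Q₀) (a := a) (b := b) p
      rw [hZ, add_zero] at hsum
      rcases mul_eq_zero.1 h0 with h | h
      · have : p = b := coord_ext hcr (by rw [h, cX_b]) (by rw [cY_b hcr]; linarith)
        rw [this]; exact hb
      · have : p = a := coord_ext hcr (by rw [cX_a hcr]; linarith) (by rw [h, cY_a])
        rw [this]; exact ha
    · have hZ2 : 0 < cZ Q₀ a b p ^ 2 := by positivity
      have hXY : 0 < cX Q₀ a b p * cY Q₀ a b p := by rw [hp]; positivity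
      have hXpos : 0 < cX Q₀ a b p ∧ 0 < cY Q₀ a b p := by
        rcases pos_and_pos_or_neg_and_neg_of_mul_pos hXY with h | h
        · exact h
        · exfalso
          obtain ⟨h1, h2⟩ := h
          have hz : cZ Q₀ a b p = 1 - cX Q₀ a b p - cY Q₀ a b p := rfl
          rw [hz] at hp
          nlinarith [mul_pos_of_neg_of_neg h1 h2, sq_nonneg (cX Q₀ a b p - cY Q₀ a b p)]
      obtain ⟨hX, hY⟩ := hXpos
      obtain ⟨y, hy, hya, hyb, hyκ, hyZ⟩ := hrep (cZ Q₀ a b p) hZ
      have hXy := hXp y hy hyb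
      have hYy := hYp y hy hya
      obtain ⟨x', hx', D, hD, h1, h2, h3⟩ := move hoc hKc hKs hKi hKf hyp hcr ha hb hab hTa hTb
        (l := Real.sqrt ((cX Q₀ a b p / cY Q₀ a b p) / (cX Q₀ a b y / cY Q₀ a b y)))
        (Real.sqrt_pos.2 (by positivity)) hy
      set l := Real.sqrt ((cX Q₀ a b p / cY Q₀ a b p) / (cX Q₀ a b y / cY Q₀ a b y)) with hl
      have hl0 : 0 < l := Real.sqrt_pos.2 (by positivity)
      have hl2 : l * l = (cX Q₀ a b p / cY Q₀ a b p) / (cX Q₀ a b y / cY Q₀ a b y) :=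
        Real.mul_self_sqrt (by positivity)
      -- scale
      set τ := D⁻¹ * l⁻¹ * cY Q₀ a b y / cY Q₀ a b p with hτ
      have hτ0 : 0 < τ := by positivity
      have hτY : cY Q₀ a b x' = τ * cY Q₀ a b p := by
        rw [hτ]
        have : cY Q₀ a b x' = D⁻¹ * (D * cY Q₀ a b x') := by field_simp
        rw [this, h2]
        field_simp
      have hτX : cX Q₀ a b x' = τ * cX Q₀ a b p := by
        have : cX Q₀ a b x' = D⁻¹ * (D * cX Q₀ a b x') := by field_simp
        rw [this, h1, hτ]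
        have e : l = (l * l) * l⁻¹ := by field_simp
        nth_rw 1 [e]
        rw [hl2]
        field_simp
      have hx'κ : cX Q₀ a b x' * cY Q₀ a b x' = κ * cZ Q₀ a b x' ^ 2 := by
        have h4 : D * D * (cX Q₀ a b x' * cY Q₀ a b x') = D * D * (κ * cZ Q₀ a b x' ^ 2) := by
          calc D * D * (cX Q₀ a b x' * cY Q₀ a b x') = (D * cX Q₀ a b x') * (D * cY Q₀ a b x') := by ring
            _ = (l * cX Q₀ a b y) * (l⁻¹ * cY Q₀ a b y) := by rw [h1, h2]
            _ = cX Q₀ a b y * cY Q₀ a b y := by field_simp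
            _ = κ * (D * cZ Q₀ a b x') ^ 2 := by rw [hyκ, h3]
            _ = _ := by ring
        exact mul_left_cancel₀ (by positivity) h4
      have hτZ2 : cZ Q₀ a b x' ^ 2 = (τ * cZ Q₀ a b p) ^ 2 := by
        have : κ * cZ Q₀ a b x' ^ 2 = κ * (τ * cZ Q₀ a b p) ^ 2 := by
          rw [← hx'κ, hτX, hτY]
          calc τ * cX Q₀ a b p * (τ * cY Q₀ a b p) = τ ^ 2 * (cX Q₀ a b p * cY Q₀ a b p) := by ring
            _ = _ := by rw [hp]; ring
        exact mul_left_cancel₀ hκ0.ne' this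
      have hτZ : cZ Q₀ a b x' = τ * cZ Q₀ a b p := by
        rcases sq_eq_sq_iff_eq_or_eq_neg.1 hτZ2 with h | h
        · exact h
        · exfalso
          have h4 : 0 < cZ Q₀ a b y * cZ Q₀ a b p := hyZ
          rw [← h3, h] at h4
          have h5 : 0 < cZ Q₀ a b p * cZ Q₀ a b p := mul_self_pos.2 hZ
          have h6 : 0 < D * τ := by positivity
          nlinarith
      have hτ1 : τ = 1 := by
        have e1 := sum_coord (Q₀ := Q₀) (a := a) (b := b) x'
        have e2 := sum_coord (Q₀ := Q₀) (a := a) (b := b) p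
        rw [hτX, hτY, hτZ, ← mul_add, ← mul_add, e2, mul_one] at e1
        exact e1
      have : p = x' := coord_ext hcr (by rw [hτX, hτ1, one_mul]) (by rw [hτY, hτ1, one_mul])
      rw [this]; exact hx'

end Pool.Agent.H57.Oval
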