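import Mathlib
import Pool.Agent.H57.Oval.Conic

open Set Filter Topology
open scoped ContDiff LinearAlgebra.Projectivization

namespace Pool.Agent.H57.Oval

lemma cross_axes (u v : E2) (A B : ℝ) :
    cross ((A / 2) • (u + v)) ((B / 2) • (u - v)) = -(A * B / 2) * cross u v := by
  simp [cross]; ring

lemma ellipse_of_conic {γ : Set E2} {Q₀ a b : E2} (hcr : cross (a - Q₀) (b - Q₀) ≠ 0) {κ : ℝ}
    (hκ : 1 < 4 * κ)
    (hγ : ∀ p : E2, p ∈ γ ↔ cX Q₀ a b p * cY Q₀ a b p = κ * (cZ Q₀ a b p) ^ 2) : IsEllipse γ := by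
  obtain ⟨M, hM⟩ : ∃ M, M = 4 * κ - 1 := ⟨_, rfl⟩
  have hM0 : 0 < M := by rw [hM]; linarith
  have hκM : κ = (M + 1) / 4 := by rw [hM]; ring
  obtain ⟨A, hA⟩ : ∃ A, A = Real.sqrt (M + 1) / M := ⟨_, rfl⟩
  obtain ⟨B, hB⟩ : ∃ B, B = Real.sqrt ((M + 1) / M) := ⟨_, rfl⟩
  have hA0 : 0 < A := by rw [hA]; positivity
  have hB0 : 0 < B := by rw [hB]; positivity
  have hA2 : A ^ 2 = (M + 1) / M ^ 2 := by rw [hA, div_pow, Real.sq_sqrt (by positivity)]
  have hB2 : B ^ 2 = (M + 1) / M := by rw [hB, Real.sq_sqrt (by positivity)]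
  set e₁ := a - Q₀ with he₁
  set e₂ := b - Q₀ with he₂
  set f₁ : E2 := (A / 2) • (e₁ + e₂) with hf₁
  set f₂ : E2 := (B / 2) • (e₁ - e₂) with hf₂
  have hcf : cross f₁ f₂ ≠ 0 := by
    rw [hf₁, hf₂, cross_axes]
    exact mul_ne_zero (neg_ne_zero.2 (by positivity)) hcr
  set C : E2 := Q₀ + ((M + 1) / (2 * M)) • (e₁ + e₂) with hC
  have hfX : ∀ x y : ℝ, C + x • f₁ + y • f₂ = Q₀ + ((M + 1) / (2 * M) + A / 2 * x + B / 2 * y) • (a - Q₀) +
      ((M + 1) / (2 * M) + A / 2 * x - B / 2 * y) • (b - Q₀) := by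
    intro x y
    rw [hC, hf₁, hf₂]
    module
  have hiff : ∀ x y : ℝ, C + x • f₁ + y • f₂ ∈ γ ↔ x ^ 2 + y ^ 2 = 1 := by
    intro x y
    rw [hγ, hfX x y]
    unfold cZ
    rw [cX_mk hcr, cY_mk hcr, hκM]
    have key : ∀ u w : ℝ, ((M + 1) / (2 * M) + A / 2 * u + B / 2 * w) * ((M + 1) / (2 * M) + A / 2 * u - B / 2 * w)
        - (M + 1) / 4 * (1 - ((M + 1) / (2 * M) + A / 2 * u + B / 2 * w) - ((M + 1) / (2 * M) + A / 2 * u - B / 2 * w)) ^ 2
        = (M + 1) / (4 * M) * (1 - u ^ 2 - w ^ 2) := by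
      intro u w
      have e : ((M + 1) / (2 * M) + A / 2 * u + B / 2 * w) * ((M + 1) / (2 * M) + A / 2 * u - B / 2 * w)
        - (M + 1) / 4 * (1 - ((M + 1) / (2 * M) + A / 2 * u + B / 2 * w) - ((M + 1) / (2 * M) + A / 2 * u - B / 2 * w)) ^ 2
        = ((M + 1) / (2 * M)) ^ 2 + (M + 1) / (2 * M) * A * u + A ^ 2 / 4 * u ^ 2 - B ^ 2 / 4 * w ^ 2
          - (M + 1) / 4 * ((1 - (M + 1) / M) ^ 2 - 2 * (1 - (M + 1) / M) * A * u + A ^ 2 * u ^ 2) := by
        field_simp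
        ring
      rw [e, hA2, hB2]
      field_simp
      ring
    have hk := key x y
    have hpos : 0 < (M + 1) / (4 * M) := by positivity
    constructor
    · intro h
      have h0 : (M + 1) / (4 * M) * (1 - x ^ 2 - y ^ 2) = 0 := by rw [← hk, h]; ring
      rcases mul_eq_zero.1 h0 with h' | h'
      · exact absurd h' hpos.ne'
      · linarith
    · intro h
      have h0 : 1 - x ^ 2 - y ^ 2 = 0 := by linarith
      rw [h0, mul_zero] at hk
      linarith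
  refine ⟨C, f₁, f₂, hcf, ?_⟩
  ext p
  constructor
  · intro hp
    have hrep := exists_cross_repr f₁ f₂ (p - C) hcf
    set x := cross (p - C) f₂ / cross f₁ f₂
    set y := cross f₁ (p - C) / cross f₁ f₂
    have hp' : p = C + x • f₁ + y • f₂ := by rw [add_assoc, ← hrep]; abel
    have hxy : x ^ 2 + y ^ 2 = 1 := by rw [← hiff, ← hp']; exact hp
    obtain ⟨θ, hθ1, hθ2⟩ : ∃ θ : ℝ, Real.cos θ = x ∧ Real.sin θ = y := by
      have hn : ‖(⟨x, y⟩ : ℂ)‖ = 1 := by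
        rw [Complex.norm_def, Complex.normSq_mk]
        have : x * x + y * y = 1 := by rw [← hxy]; ring
        rw [this, Real.sqrt_one]
      have hne : (⟨x, y⟩ : ℂ) ≠ 0 := by
        intro h0; rw [h0, norm_zero] at hn; exact zero_ne_one hn
      refine ⟨Complex.arg ⟨x, y⟩, ?_, ?_⟩
      · rw [Complex.cos_arg hne, hn, div_one]
      · rw [Complex.sin_arg, hn, div_one]
    exact ⟨θ, by simp only [hθ1, hθ2]; exact hp'.symm⟩
  · rintro ⟨θ, rfl⟩
    simp only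
    rw [hiff]
    exact Real.cos_sq_add_sin_sq θ

/-- Main theorem. -/
theorem ellipse_of_allConj {c : ℝ → E2} (hoc : IsOval c) (hyp : AllConj c) : IsEllipse (range c) := by
  obtain ⟨K, hKc, hKs, hKi, hKf⟩ := hoc.convex
  obtain ⟨Q, hQ⟩ : ∃ Q, Q ∉ K := by
    obtain ⟨R, hR⟩ := hKc.isBounded.subset_closedBall 0
    refine ⟨EuclideanSpace.single 0 (|R| + 1), fun h => ?_⟩
    have := hR h
    rw [mem_closedBall_zero_iff] at this
    simp at this
    rw [abs_of_pos (by positivity)] at this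
    linarith [le_abs_self R]
  obtain ⟨a, b, ha, hb, hab, hT⟩ := exists_tangents hKc hKs hKi hQ
  obtain ⟨hcr, κ, hκ, hγ⟩ := conic hoc hKc hKs hKi hKf hyp hQ ha hb hab hT
  rw [hKf] at hγ
  exact ellipse_of_conic hcr hκ hγ

end Pool.Agent.H57.Oval
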